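import Pool.Agent.P.MP_27e7ce_al.Defs
import Mathlib

-- part Pool.Agent.P.MP_27e7ce_al.Model
section

namespace Pool.Agent.P.MP_27e7ce_al

/-- Affine coordinates on a group isomorphic to `BS(1,k)`. -/
structure Model (G : Type) [Group G] where
  k : ℕ
  hk : 2 ≤ k
  v : G → ℚ
  h : G → ℤ
  v_mul : ∀ g g', v (g * g') = v g + (k : ℚ) ^ (h g) * v g'
  h_mul : ∀ g g', h (g * g') = h g + h g'
  ext' : ∀ g g', v g = v g' → h g = h g' → g = g'
  a : G
  t : G
  va : v a = 1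
  ha : h a = 0
  vt : v t = 0
  ht : h t = 1
  frac : ∀ g, ∃ e : ℕ, ∃ z : ℤ, v g * (k : ℚ) ^ e = z

/-- The affine group used to build coordinates. -/
@[ext] structure Aff (k : ℕ) where
  x : ℚ
  m : ℤ

namespace Aff

variable {k : ℕ}

instance : Mul (Aff k) := ⟨fun g g' => ⟨g.x + (k : ℚ) ^ g.m * g'.x, g.m + g'.m⟩⟩
instance : One (Aff k) := ⟨⟨0, 0⟩⟩
instance : Inv (Aff k) := ⟨fun g => ⟨-((k : ℚ) ^ (-g.m) * g.x), -g.m⟩⟩

@[simp] lemma mul_x (g g' : Aff k) : (g * g').x = g.x + (k : ℚ) ^ g.m * g'.x := rfl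
@[simp] lemma mul_m (g g' : Aff k) : (g * g').m = g.m + g'.m := rfl
@[simp] lemma one_x : (1 : Aff k).x = 0 := rfl
@[simp] lemma one_m : (1 : Aff k).m = 0 := rfl
@[simp] lemma inv_x (g : Aff k) : (g⁻¹).x = -((k : ℚ) ^ (-g.m) * g.x) := rfl
@[simp] lemma inv_m (g : Aff k) : (g⁻¹).m = -g.m := rfl

instance [NeZero k] : Group (Aff k) :=
  Group.ofLeftAxioms
    (by
      intro a b c
      have hk : (k : ℚ) ≠ 0 := by exact_mod_cast NeZero.ne k
      ext
      · simp only [mul_x, mul_m, zpow_add₀ hk]; ring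
      · simp only [mul_m]; ring)
    (by intro a; ext <;> simp)
    (by intro a; ext <;> simp)

lemma a_pow [NeZero k] (n : ℕ) : ((⟨1, 0⟩ : Aff k) ^ n) = ⟨n, 0⟩ := by
  induction n with
  | zero => rfl
  | succ n ih => rw [pow_succ, ih]; ext <;> simp

lemma a_zpow [NeZero k] (z : ℤ) : ((⟨1, 0⟩ : Aff k) ^ z) = ⟨z, 0⟩ := by
  obtain ⟨n, rfl | rfl⟩ := z.eq_nat_or_neg
  · rw [zpow_natCast, a_pow]; simp
  · rw [zpow_neg, zpow_natCast, a_pow]; ext <;> simp

lemma t_pow [NeZero k] (n : ℕ) : ((⟨0, 1⟩ : Aff k) ^ n) = ⟨0, n⟩ := by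
  induction n with
  | zero => rfl
  | succ n ih => rw [pow_succ, ih]; ext <;> simp

end Aff

section BS

variable (k : ℕ) [NeZero k]

/-- images of the generators -/
def gens : Fin 2 → Aff k := ![⟨1, 0⟩, ⟨0, 1⟩]

lemma gens_rel : ∀ r ∈ bsRel k, FreeGroup.lift (gens k) r = 1 := by
  intro r hr
  rw [bsRel, Set.mem_singleton_iff] at hr
  subst hr
  simp only [map_mul, map_inv, map_pow, FreeGroup.lift_apply_of, gens, Matrix.cons_val_zero,
    Matrix.cons_val_one, Aff.a_pow]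
  ext <;> simp

/-- the affine representation -/
def rep : PresentedGroup (bsRel k) →* Aff k := PresentedGroup.toGroup (gens_rel k)

omit [NeZero k] in
lemma bs_rel : (PresentedGroup.of 1 : PresentedGroup (bsRel k)) * PresentedGroup.of 0 =
    PresentedGroup.of 0 ^ k * PresentedGroup.of 1 := by
  have h := PresentedGroup.one_of_mem (rels := bsRel k) (Set.mem_singleton _)
  simp only [map_mul, map_inv, map_pow] at h
  have h' : (PresentedGroup.of 1 : PresentedGroup (bsRel k)) * PresentedGroup.of 0 *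
      (PresentedGroup.of 1)⁻¹ * (PresentedGroup.of 0 ^ k)⁻¹ = 1 := h
  rw [mul_inv_eq_one, mul_inv_eq_iff_eq_mul] at h'
  exact h'

end BS

section NF

variable {G : Type} [Group G] {a t : G} {k : ℕ}

lemma semiconj_zpow (h : t * a = a ^ k * t) (q : ℤ) : t * a ^ q = a ^ (q * k) * t := by
  have h1 : SemiconjBy t a (a ^ k) := h
  have h2 := h1.zpow_right q
  rw [SemiconjBy] at h2
  rw [h2, ← zpow_natCast, ← zpow_mul, mul_comm (k : ℤ) q]

lemma semiconj_pow (h : t * a = a ^ k * t) (p : ℕ) (q : ℤ) :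
    t ^ p * a ^ q = a ^ (q * (k : ℤ) ^ p) * t ^ p := by
  induction p generalizing q with
  | zero => simp
  | succ p ih =>
    rw [pow_succ', mul_assoc, ih, ← mul_assoc, semiconj_zpow h, mul_assoc, mul_assoc, pow_succ]

lemma nf_left (h : t * a = a ^ k * t) (z : ℤ) (p r : ℕ) (q : ℤ) :
    a ^ z * ((t ^ p)⁻¹ * a ^ q * t ^ r) = (t ^ p)⁻¹ * a ^ (z * (k : ℤ) ^ p + q) * t ^ r := by
  have h1 := semiconj_pow h p z
  have h2 : a ^ z * (t ^ p)⁻¹ = (t ^ p)⁻¹ * a ^ (z * (k : ℤ) ^ p) := by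
    rw [eq_inv_mul_iff_mul_eq, ← mul_assoc, h1, mul_inv_cancel_right]
  rw [zpow_add, ← mul_assoc, ← mul_assoc, h2]
  simp only [mul_assoc]

lemma nf_exists (h : t * a = a ^ k * t) (hgen : Subgroup.closure ({a, t} : Set G) = ⊤) (g : G) :
    ∃ (p r : ℕ) (q : ℤ), g = (t ^ p)⁻¹ * a ^ q * t ^ r := by
  have hg : g ∈ Subgroup.closure ({a, t} : Set G) := by rw [hgen]; trivial
  induction hg using Subgroup.closure_induction_left with
  | one => exact ⟨0, 0, 0, by simp⟩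
  | mul_left x hx y _ ih =>
    obtain ⟨p, r, q, rfl⟩ := ih
    rcases hx with rfl | rfl
    · exact ⟨p, r, _, by simpa using nf_left h 1 p r q⟩
    · cases p with
      | zero =>
        refine ⟨0, r + 1, q * k, ?_⟩
        simp only [pow_zero, inv_one, one_mul]
        rw [← mul_assoc, semiconj_zpow h, pow_succ', mul_assoc]
      | succ p =>
        refine ⟨p, r, q, ?_⟩
        rw [pow_succ']
        group
  | inv_mul_cancel x hx y _ ih =>
    obtain ⟨p, r, q, rfl⟩ := ih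
    rcases hx with rfl | rfl
    · exact ⟨p, r, _, by simpa using nf_left h (-1) p r q⟩
    · refine ⟨p + 1, r, q, ?_⟩
      rw [pow_succ]
      group

end NF

section BS2

variable (k : ℕ) [NeZero k]

omit [NeZero k] in
lemma bs_gen : Subgroup.closure ({PresentedGroup.of 0, PresentedGroup.of 1} :
    Set (PresentedGroup (bsRel k))) = ⊤ := by
  rw [← PresentedGroup.closure_range_of]
  congr 1
  ext x
  simp only [Set.mem_insert_iff, Set.mem_singleton_iff, Set.mem_range, Fin.exists_fin_two]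
  constructor
  · rintro (h | h)
    · exact Or.inl h.symm
    · exact Or.inr h.symm
  · rintro (h | h)
    · exact Or.inl h.symm
    · exact Or.inr h.symm

lemma rep_a : rep k (PresentedGroup.of 0) = ⟨1, 0⟩ := by
  simp [rep, PresentedGroup.toGroup.of, gens]

lemma rep_t : rep k (PresentedGroup.of 1) = ⟨0, 1⟩ := by
  simp [rep, PresentedGroup.toGroup.of, gens]

lemma rep_nf (p r : ℕ) (q : ℤ) :
    rep k ((PresentedGroup.of 1 ^ p)⁻¹ * PresentedGroup.of 0 ^ q * PresentedGroup.of 1 ^ r) =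
      ⟨(k : ℚ) ^ (-(p : ℤ)) * q, -(p : ℤ) + r⟩ := by
  simp only [map_mul, map_inv, map_pow, map_zpow, rep_a, rep_t, Aff.a_zpow, Aff.t_pow]
  ext <;> simp

lemma rep_inj : Function.Injective (rep k) := by
  rw [injective_iff_map_eq_one]
  intro g hg
  obtain ⟨p, r, q, rfl⟩ := nf_exists (bs_rel k) (bs_gen k) g
  rw [rep_nf] at hg
  have h1 := congrArg Aff.x hg
  have h2 := congrArg Aff.m hg
  have hk : (k : ℚ) ≠ 0 := by exact_mod_cast NeZero.ne k
  simp only [Aff.one_x, Aff.one_m, mul_eq_zero, zpow_ne_zero _ hk, false_or,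
    Int.cast_eq_zero] at h1 h2
  have h3 : r = p := by omega
  subst h1 h3
  simp

end BS2

/-- coordinates on the presented group -/
noncomputable def bsModel (k : ℕ) (hk : 2 ≤ k) : Model (PresentedGroup (bsRel k)) :=
  haveI : NeZero k := ⟨by omega⟩
  { k := k
    hk := hk
    v := fun g => (rep k g).x
    h := fun g => (rep k g).m
    v_mul := fun g g' => by simp
    h_mul := fun g g' => by simp
    ext' := fun g g' h1 h2 => rep_inj k (Aff.ext h1 h2)
    a := PresentedGroup.of 0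
    t := PresentedGroup.of 1
    va := by simp [rep_a]
    ha := by simp [rep_a]
    vt := by simp [rep_t]
    ht := by simp [rep_t]
    frac := fun g => by
      obtain ⟨p, r, q, rfl⟩ := nf_exists (bs_rel k) (bs_gen k) g
      refine ⟨p, q, ?_⟩
      have hk : (k : ℚ) ≠ 0 := by exact_mod_cast NeZero.ne k
      rw [rep_nf]
      simp only [zpow_neg, zpow_natCast]
      field_simp }

end Pool.Agent.P.MP_27e7ce_al
end

-- part Pool.Agent.P.MP_27e7ce_al.Ctx
section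

namespace Pool.Agent.P.MP_27e7ce_al

open Finset

section Word

variable {G : Type} [Group G] {S : Set G}

lemma word_exists (hS : Subgroup.closure S = ⊤) (g : G) :
    ∃ w : List G, w.length = wordLength S g ∧ (∀ s ∈ w, s ∈ S ∨ s⁻¹ ∈ S) ∧ w.prod = g := by
  have hne : {n : ℕ | ∃ w : List G, w.length = n ∧ (∀ s ∈ w, s ∈ S ∨ s⁻¹ ∈ S) ∧
      w.prod = g}.Nonempty := by
    have hg : g ∈ Subgroup.closure S := by rw [hS]; trivial
    have hg' : g ∈ (Subgroup.closure S).toSubmonoid := hg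
    rw [Subgroup.closure_toSubmonoid] at hg'
    obtain ⟨l, hl, hl'⟩ := Submonoid.exists_list_of_mem_closure hg'
    refine ⟨l.length, l, rfl, fun s hs => ?_, hl'⟩
    rcases hl s hs with h | h
    · exact Or.inl h
    · exact Or.inr (by simpa using h)
  exact Nat.sInf_mem hne

lemma wordLength_le {g : G} (w : List G) (hw : ∀ s ∈ w, s ∈ S ∨ s⁻¹ ∈ S) (hg : w.prod = g) :
    wordLength S g ≤ w.length :=
  Nat.sInf_le ⟨w, rfl, hw, hg⟩

lemma wordLength_inv_le (hS : Subgroup.closure S = ⊤) (g : G) :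
    wordLength S g⁻¹ ≤ wordLength S g := by
  obtain ⟨w, h1, h2, h3⟩ := word_exists hS g
  have := wordLength_le (S := S) (g := g⁻¹) (w.map (·⁻¹)).reverse (by
    intro s hs
    simp only [List.mem_reverse, List.mem_map] at hs
    obtain ⟨u, hu, rfl⟩ := hs
    rcases h2 u hu with h | h
    · exact Or.inr (by simpa using h)
    · exact Or.inl h) (by rw [← h3, List.prod_inv_reverse])
  simpa [h1] using this

end Word

/-- All the data used in the proof. -/
structure Ctx (G : Type) [Group G] extends Model G where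
  len : G → ℕ
  T : Finset G
  len_one : len 1 = 0
  len_mul : ∀ g g', len (g * g') ≤ len g + len g'
  len_inv : ∀ g, len g⁻¹ = len g
  len_T : ∀ s ∈ T, len s ≤ 1
  inv_T : ∀ s ∈ T, s⁻¹ ∈ T
  path : ∀ g, ∃ p : ℕ → G, p 0 = 1 ∧ p (len g) = g ∧ ∀ i < len g, (p i)⁻¹ * p (i + 1) ∈ T
  D : ℕ
  E : ℕ
  V : ℕ
  D_pos : 1 ≤ D
  hD : ∀ s ∈ T, |h s| ≤ D
  hE : ∀ s ∈ T, ∃ z : ℤ, v s * (k : ℚ) ^ E = z
  hV : ∀ s ∈ T, |v s| ≤ V

lemma exists_ctx {G : Type} [Group G] (M : Model G) (S : Finset G)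
    (hS : Subgroup.closure (S : Set G) = ⊤) :
    ∃ c : Ctx G, c.len = wordLength (S : Set G) := by
  classical
  set T : Finset G := S ∪ S.image (·⁻¹) with hT
  have hmem : ∀ s, s ∈ T ↔ (s ∈ (S : Set G) ∨ s⁻¹ ∈ (S : Set G)) := by
    intro s
    simp only [hT, mem_union, mem_image, mem_coe]
    constructor
    · rintro (h | ⟨u, hu, rfl⟩)
      · exact Or.inl h
      · exact Or.inr (by simpa using hu)
    · rintro (h | h)
      · exact Or.inl h
      · exact Or.inr ⟨s⁻¹, h, by simp⟩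
  obtain ⟨D, hD⟩ : ∃ D : ℕ, ∀ s ∈ T, |M.h s| ≤ D := by
    refine ⟨T.sup fun s => (M.h s).natAbs, fun s hs => ?_⟩
    have := Finset.le_sup (f := fun s => (M.h s).natAbs) hs
    rw [Int.abs_eq_natAbs]
    exact_mod_cast this
  obtain ⟨V, hV⟩ : ∃ V : ℕ, ∀ s ∈ T, |M.v s| ≤ V := by
    refine ⟨T.sup fun s => ⌈|M.v s|⌉₊, fun s hs => ?_⟩
    have := Finset.le_sup (f := fun s => ⌈|M.v s|⌉₊) hs
    exact (Nat.le_ceil _).trans (by exact_mod_cast this)
  obtain ⟨E, hE⟩ : ∃ E : ℕ, ∀ s ∈ T, ∃ z : ℤ, M.v s * (M.k : ℚ) ^ E = z := by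
    choose e z hz using M.frac
    refine ⟨T.sup e, fun s hs => ?_⟩
    have h1 : e s ≤ T.sup e := Finset.le_sup (f := e) hs
    obtain ⟨d, hd⟩ := Nat.exists_eq_add_of_le h1
    refine ⟨z s * (M.k : ℤ) ^ d, ?_⟩
    rw [hd, pow_add, ← mul_assoc, hz]
    push_cast; ring
  refine ⟨{ M with
    len := wordLength (S : Set G)
    T := T
    len_one := ?_
    len_mul := ?_
    len_inv := ?_
    len_T := ?_
    inv_T := ?_
    path := ?_
    D := D + 1
    E := E
    V := V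
    D_pos := by omega
    hD := fun s hs => (hD s hs).trans (by push_cast; linarith)
    hE := hE
    hV := hV }, rfl⟩
  · have := wordLength_le (S := (S : Set G)) (g := 1) [] (by simp) (by simp)
    simpa using this
  · intro g g'
    obtain ⟨w, h1, h2, h3⟩ := word_exists hS g
    obtain ⟨w', h1', h2', h3'⟩ := word_exists hS g'
    have := wordLength_le (S := (S : Set G)) (g := g * g') (w ++ w') (by
      intro s hs
      rcases List.mem_append.1 hs with h | h
      · exact h2 s h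
      · exact h2' s h) (by rw [List.prod_append, h3, h3'])
    simpa [h1, h1'] using this
  · intro g
    refine le_antisymm (wordLength_inv_le hS g) ?_
    simpa using wordLength_inv_le hS g⁻¹
  · intro s hs
    have := wordLength_le (S := (S : Set G)) (g := s) [s] (by simpa using (hmem s).1 hs) (by simp)
    simpa using this
  · intro s hs
    rw [hmem] at hs ⊢
    rcases hs with h | h
    · exact Or.inr (by simpa using h)
    · exact Or.inl h
  · intro g
    obtain ⟨w, h1, h2, h3⟩ := word_exists hS g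
    refine ⟨fun i => (w.take i).prod, by simp, by rw [← h1]; simpa using h3, fun i hi => ?_⟩
    rw [← h1] at hi
    simp only [List.prod_take_succ w i hi, inv_mul_cancel_left]
    exact (hmem _).2 (h2 _ (List.getElem_mem hi))

namespace Ctx

variable {G : Type} [Group G] (c : Ctx G)

lemma k_pos : (0 : ℚ) < c.k := by have := c.hk; positivity

lemma k_ne : (c.k : ℚ) ≠ 0 := c.k_pos.ne'

lemma one_le_k : (1 : ℚ) ≤ c.k := by have := c.hk; exact_mod_cast (by omega : 1 ≤ c.k)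

lemma two_le_k : (2 : ℚ) ≤ c.k := by exact_mod_cast c.hk

@[simp] lemma h_one : c.h 1 = 0 := by
  have := c.h_mul 1 1
  rw [one_mul] at this; omega

@[simp] lemma v_one : c.v 1 = 0 := by
  have := c.v_mul 1 1
  rw [one_mul, h_one, zpow_zero, one_mul] at this; linarith

@[simp] lemma h_mul' (g g' : G) : c.h (g * g') = c.h g + c.h g' := c.h_mul g g'

lemma v_mul' (g g' : G) : c.v (g * g') = c.v g + (c.k : ℚ) ^ (c.h g) * c.v g' := c.v_mul g g'

@[simp] lemma h_inv (g : G) : c.h g⁻¹ = -c.h g := by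
  have := c.h_mul g g⁻¹
  rw [mul_inv_cancel, h_one] at this; omega

lemma v_inv (g : G) : c.v g⁻¹ = -((c.k : ℚ) ^ (-c.h g) * c.v g) := by
  have := c.v_mul g⁻¹ g
  rw [inv_mul_cancel, v_one, h_inv] at this; linarith

@[simp] lemma h_pow (g : G) (n : ℕ) : c.h (g ^ n) = n * c.h g := by
  induction n with
  | zero => simp
  | succ n ih => rw [pow_succ, h_mul', ih]; push_cast; ring

@[simp] lemma h_zpow (g : G) (z : ℤ) : c.h (g ^ z) = z * c.h g := by
  obtain ⟨n, rfl | rfl⟩ := z.eq_nat_or_neg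
  · simp
  · simp

@[simp] lemma h_a : c.h c.a = 0 := c.ha
@[simp] lemma h_t : c.h c.t = 1 := c.ht

lemma v_t_pow (n : ℕ) : c.v (c.t ^ n) = 0 := by
  induction n with
  | zero => simp
  | succ n ih => rw [pow_succ, v_mul', ih, c.vt]; simp

@[simp] lemma v_t_zpow (z : ℤ) : c.v (c.t ^ z) = 0 := by
  obtain ⟨n, rfl | rfl⟩ := z.eq_nat_or_neg
  · simp [v_t_pow]
  · simp [v_inv, v_t_pow]

lemma v_a_pow (n : ℕ) : c.v (c.a ^ n) = n := by
  induction n with
  | zero => simp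
  | succ n ih => rw [pow_succ, v_mul', ih, c.va]; simp

@[simp] lemma v_a_zpow (z : ℤ) : c.v (c.a ^ z) = z := by
  obtain ⟨n, rfl | rfl⟩ := z.eq_nat_or_neg
  · simp [v_a_pow]
  · simp [v_inv, v_a_pow]

/-- the element with coordinates `(z, m)` -/
def el (z m : ℤ) : G := c.a ^ z * c.t ^ m

@[simp] lemma v_el (z m : ℤ) : c.v (c.el z m) = z := by simp [el, v_mul']
@[simp] lemma h_el (z m : ℤ) : c.h (c.el z m) = m := by simp [el]

lemma len_pow_le (g : G) (n : ℕ) : c.len (g ^ n) ≤ n * c.len g := by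
  induction n with
  | zero => simp [c.len_one]
  | succ n ih => rw [pow_succ]; have := c.len_mul (g ^ n) g; nlinarith

lemma len_zpow_le (g : G) (z : ℤ) : c.len (g ^ z) ≤ z.natAbs * c.len g := by
  obtain ⟨n, rfl | rfl⟩ := z.eq_nat_or_neg
  · simpa using c.len_pow_le g n
  · simpa [c.len_inv] using c.len_pow_le g n

lemma len_mul3 (g₁ g₂ g₃ : G) : c.len (g₁ * g₂ * g₃) ≤ c.len g₁ + c.len g₂ + c.len g₃ := by
  have := c.len_mul (g₁ * g₂) g₃
  have := c.len_mul g₁ g₂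
  omega

/-- cost of a power of `a` -/
lemma len_a_pow (b n : ℕ) :
    c.len (c.a ^ n) ≤ (c.k * c.len c.a + 2 * c.len c.t) * b + c.len c.a * (n / c.k ^ b) := by
  induction b generalizing n with
  | zero => simpa [mul_comm] using c.len_pow_le c.a n
  | succ b ih =>
    have hk : 0 < c.k := by have := c.hk; omega
    have e : c.a ^ n = c.a ^ (n % c.k) * (c.t * c.a ^ (n / c.k) * c.t⁻¹) := by
      apply c.ext'
      · simp only [v_mul', v_a_pow, h_mul', h_pow, h_a, h_t, v_inv, c.vt]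
        simp only [mul_zero, zpow_zero, zpow_one, neg_zero, add_zero, zero_add, one_mul]
        exact_mod_cast (Nat.mod_add_div n c.k).symm
      · simp
    have h1 := c.len_mul (c.a ^ (n % c.k)) (c.t * c.a ^ (n / c.k) * c.t⁻¹)
    have h2 := c.len_mul3 c.t (c.a ^ (n / c.k)) c.t⁻¹
    have h3 := c.len_pow_le c.a (n % c.k)
    have h4 : n % c.k * c.len c.a ≤ c.k * c.len c.a :=
      Nat.mul_le_mul_right _ (Nat.mod_lt n hk).le
    have h5 := ih (n / c.k)
    rw [Nat.div_div_eq_div_mul, ← pow_succ'] at h5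
    rw [c.len_inv] at h2
    rw [e]
    nlinarith

lemma len_a_zpow (b : ℕ) (z : ℤ) :
    c.len (c.a ^ z) ≤
      (c.k * c.len c.a + 2 * c.len c.t) * b + c.len c.a * (z.natAbs / c.k ^ b) := by
  obtain ⟨n, rfl | rfl⟩ := z.eq_nat_or_neg
  · simpa using c.len_a_pow b n
  · simpa [c.len_inv] using c.len_a_pow b n

/-- a path with `N` steps in `T` -/
def IsPath (p : ℕ → G) (N : ℕ) : Prop := ∀ i < N, (p i)⁻¹ * p (i + 1) ∈ c.T

variable {c}

lemma IsPath.len_le {p : ℕ → G} {N : ℕ} (hp : c.IsPath p N) {i j : ℕ} (hij : i ≤ j)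
    (hj : j ≤ N) : c.len ((p i)⁻¹ * p j) ≤ j - i := by
  induction j, hij using Nat.le_induction with
  | base => simp [c.len_one]
  | succ j hij ih =>
    have h1 := ih (by omega)
    have h2 := c.len_T _ (hp j (by omega))
    have h3 := c.len_mul ((p i)⁻¹ * p j) ((p j)⁻¹ * p (j + 1))
    have e : (p i)⁻¹ * p j * ((p j)⁻¹ * p (j + 1)) = (p i)⁻¹ * p (j + 1) := by group
    rw [e] at h3
    omega

lemma IsPath.step {p : ℕ → G} {N : ℕ} (hp : c.IsPath p N) {i : ℕ} (hi : i < N) :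
    |c.h (p (i + 1)) - c.h (p i)| ≤ c.D := by
  have := c.hD _ (hp i hi)
  simp only [h_mul', h_inv] at this
  rwa [neg_add_eq_sub] at this

variable (c)

lemma h_le_len (g : G) : |c.h g| ≤ c.D * c.len g := by
  obtain ⟨p, h0, hN, hp⟩ := c.path g
  have key : ∀ i ≤ c.len g, |c.h (p i)| ≤ c.D * i := by
    intro i hi
    induction i with
    | zero => simp [h0]
    | succ i ih =>
      have h1 := ih (by omega)
      have h2 := IsPath.step (c := c) hp (show i < c.len g by omega)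
      have h3 := abs_add_le (c.h (p i)) (c.h (p (i + 1)) - c.h (p i))
      rw [add_sub_cancel] at h3
      push_cast
      linarith
  simpa [hN] using key _ le_rfl

lemma ball_finite (n : ℕ) : {g : G | c.len g ≤ n}.Finite := by
  induction n with
  | zero =>
    refine (Set.finite_singleton (1 : G)).subset fun g hg => ?_
    obtain ⟨p, h0, hN, _⟩ := c.path g
    have : c.len g = 0 := by simpa using hg
    rw [this, h0] at hN
    exact hN.symm
  | succ n ih =>
    refine (ih.union (ih.image2 (· * ·) c.T.finite_toSet)).subset fun g hg => ?_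
    by_cases h : c.len g ≤ n
    · exact Or.inl h
    · have hg' : c.len g = n + 1 := by have : c.len g ≤ n + 1 := hg; omega
      obtain ⟨p, h0, hN, hp⟩ := c.path g
      right
      refine ⟨p n, ?_, (p n)⁻¹ * p (n + 1), hp n (by omega), ?_⟩
      · have := IsPath.len_le (c := c) hp (Nat.zero_le n) (by omega)
        simpa [h0] using this
      · rw [hg'] at hN
        simp [hN]

end Ctx

end Pool.Agent.P.MP_27e7ce_al
end

-- part Pool.Agent.P.MP_27e7ce_al.Cut1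
section

namespace Pool.Agent.P.MP_27e7ce_al

open Finset

namespace Ctx

variable {G : Type} [Group G] (c : Ctx G)

/-- contribution of step `i` -/
def con (p : ℕ → G) (i : ℕ) : ℚ := c.v (p (i + 1)) - c.v (p i)

lemma con_eq (p : ℕ → G) (i : ℕ) :
    c.con p i = (c.k : ℚ) ^ (c.h (p i)) * c.v ((p i)⁻¹ * p (i + 1)) := by
  have := c.v_mul (p i) ((p i)⁻¹ * p (i + 1))
  rw [mul_inv_cancel_left] at this
  rw [con, this]; ring

lemma sum_con (p : ℕ → G) (N : ℕ) : ∑ i ∈ range N, c.con p i = c.v (p N) - c.v (p 0) :=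
  Finset.sum_range_sub (fun i => c.v (p i)) N

/-- number of steps crossing level `l` -/
def cross (p : ℕ → G) (N : ℕ) (l : ℤ) : ℕ :=
  #{i ∈ range N | ¬ (c.h (p i) < l ↔ c.h (p (i + 1)) < l)}

variable {c}

lemma IsPath.sub {p : ℕ → G} {N : ℕ} (hp : c.IsPath p N) (I : ℕ → Prop) [DecidablePred I]
    (y : ℕ → ℤ) (hy : ∀ i, I i → y i = c.h (p i)) :
    ∃ q : G, c.h q = y N ∧ c.v q = ∑ i ∈ range N with I i, c.con p i ∧
      c.len ((c.t ^ (y 0))⁻¹ * q) ≤ ∑ i ∈ range N, ((if I i then 1 else 0) +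
        (y (i + 1) - (if I i then c.h (p (i + 1)) else y i)).natAbs * c.len c.t) := by
  induction N with
  | zero => exact ⟨c.t ^ (y 0), by simp, by simp, by simp [c.len_one]⟩
  | succ N ih =>
    obtain ⟨q, h1, h2, h3⟩ := ih (fun i hi => hp i (by omega))
    by_cases hI : I N
    · refine ⟨q * ((p N)⁻¹ * p (N + 1)) * c.t ^ (y (N + 1) - c.h (p (N + 1))), ?_, ?_, ?_⟩
      · simp only [h_mul', h_inv, h_zpow, h_t, h1, hy N hI]; ring
      · rw [v_mul', v_t_zpow, mul_zero, add_zero, v_mul', h1, hy N hI, ← con_eq, h2,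
          Finset.range_add_one, Finset.filter_insert, if_pos hI,
          Finset.sum_insert (by simp), add_comm]
      · rw [Finset.sum_range_succ, if_pos hI, if_pos hI]
        have h4 := c.len_mul3 ((c.t ^ (y 0))⁻¹ * q) ((p N)⁻¹ * p (N + 1))
          (c.t ^ (y (N + 1) - c.h (p (N + 1))))
        have h5 := c.len_T _ (hp N (by omega))
        have h6 := c.len_zpow_le c.t (y (N + 1) - c.h (p (N + 1)))
        simp only [mul_assoc] at h4 ⊢
        omega
    · refine ⟨q * c.t ^ (y (N + 1) - y N), ?_, ?_, ?_⟩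
      · simp only [h_mul', h_zpow, h_t, h1]; ring
      · rw [v_mul', v_t_zpow, mul_zero, add_zero, h2,
          Finset.range_add_one, Finset.filter_insert, if_neg hI]
      · rw [Finset.sum_range_succ, if_neg hI, if_neg hI]
        have h4 := c.len_mul ((c.t ^ (y 0))⁻¹ * q) (c.t ^ (y (N + 1) - y N))
        have h6 := c.len_zpow_le c.t (y (N + 1) - y N)
        simp only [mul_assoc] at h4 ⊢
        omega

lemma sum_ite_cost (N : ℕ) (I J : ℕ → Prop) [DecidablePred I] [DecidablePred J] (K : ℕ)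
    (f : ℕ → ℕ) (hf : ∀ i < N, f i ≤ if J i then K else 0) :
    ∑ i ∈ range N, ((if I i then 1 else 0) + f i) ≤
      #{i ∈ range N | I i} + K * #{i ∈ range N | J i} := by
  rw [Finset.sum_add_distrib, Finset.card_filter, Finset.card_filter, Finset.mul_sum]
  gcongr with i hi
  have := hf i (Finset.mem_range.1 hi)
  split_ifs at this ⊢ <;> omega

lemma IsPath.low {p : ℕ → G} {N : ℕ} (hp : c.IsPath p N) (l : ℤ) :
    ∃ q : G, c.h q = min (c.h (p N)) l ∧
      c.v q = ∑ i ∈ range N with c.h (p i) < l, c.con p i ∧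
      c.len ((c.t ^ (min (c.h (p 0)) l))⁻¹ * q) ≤
        #{i ∈ range N | c.h (p i) < l} + c.D * c.len c.t * c.cross p N l := by
  obtain ⟨q, h1, h2, h3⟩ := hp.sub (fun i => c.h (p i) < l) (fun i => min (c.h (p i)) l)
    (fun i hi => min_eq_left hi.le)
  refine ⟨q, h1, h2, h3.trans (sum_ite_cost N _ _ _ _ fun i hi => ?_)⟩
  have hs := abs_le.1 (hp.step hi)
  split_ifs with g1 g2 g2
  · have : min (c.h (p (i + 1))) l - c.h (p (i + 1)) = 0 := by omega
    simp [this]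
  · exact Nat.mul_le_mul_right _ (by omega)
  · have : min (c.h (p (i + 1))) l - min (c.h (p i)) l = 0 := by omega
    simp [this]
  · exact Nat.mul_le_mul_right _ (by omega)

lemma IsPath.high {p : ℕ → G} {N : ℕ} (hp : c.IsPath p N) (l : ℤ) :
    ∃ q : G, c.h q = max (c.h (p N)) l ∧
      c.v q = ∑ i ∈ range N with l ≤ c.h (p i), c.con p i ∧
      c.len ((c.t ^ (max (c.h (p 0)) l))⁻¹ * q) ≤
        #{i ∈ range N | l ≤ c.h (p i)} + c.D * c.len c.t * c.cross p N l := by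
  obtain ⟨q, h1, h2, h3⟩ := hp.sub (fun i => l ≤ c.h (p i)) (fun i => max (c.h (p i)) l)
    (fun i hi => max_eq_left hi)
  refine ⟨q, h1, h2, h3.trans (sum_ite_cost N _ _ _ _ fun i hi => ?_)⟩
  have hs := abs_le.1 (hp.step hi)
  split_ifs with g1 g2 g2
  · have : max (c.h (p (i + 1))) l - c.h (p (i + 1)) = 0 := by omega
    simp [this]
  · exact Nat.mul_le_mul_right _ (by omega)
  · have : max (c.h (p (i + 1))) l - max (c.h (p i)) l = 0 := by omega
    simp [this]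
  · exact Nat.mul_le_mul_right _ (by omega)

variable (c) in
/-- number of steps starting in the window `[j - e, j + e)` -/
def win (p : ℕ → G) (N : ℕ) (j : ℤ) (e : ℕ) : ℕ :=
  #{i ∈ range N | j - e ≤ c.h (p i) ∧ c.h (p i) < j + e}

/-- pigeonhole on crossing numbers -/
lemma IsPath.exists_cross {p : ℕ → G} {N : ℕ} (hp : c.IsPath p N) (j l₀ : ℤ) (q e : ℕ)
    (hq : 0 < q) (h1 : j - e ≤ l₀ - c.D) (h2 : l₀ + q + c.D ≤ j + e) :
    ∃ l, l₀ ≤ l ∧ l < l₀ + q ∧ q * c.cross p N l ≤ c.D * c.win p N j e := by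
  have key : ∑ u ∈ range q, c.cross p N (l₀ + u) ≤ c.D * c.win p N j e := by
    simp only [cross, win, Finset.card_filter]
    rw [Finset.sum_comm, Finset.mul_sum]
    refine Finset.sum_le_sum fun i hi => ?_
    have hs := abs_le.1 (hp.step (Finset.mem_range.1 hi))
    rw [← Finset.card_filter]
    split_ifs with hw
    · rw [mul_one]
      have : #{u ∈ range q | ¬ (c.h (p i) < l₀ + (u : ℕ) ↔ c.h (p (i + 1)) < l₀ + (u : ℕ))} ≤
          #(Finset.Ioc (min (c.h (p i)) (c.h (p (i + 1)))) (max (c.h (p i)) (c.h (p (i + 1))))) := by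
        refine Finset.card_le_card_of_injOn (fun u : ℕ => l₀ + u) ?_ ?_
        · intro u hu
          simp only [Finset.coe_filter, Set.mem_ofPred_eq] at hu
          simp only [Finset.coe_Ioc, Set.mem_Ioc]
          omega
        · intro u _ u' _ h
          simpa using h
      rw [Int.card_Ioc] at this
      omega
    · rw [mul_zero, Nat.le_zero, Finset.card_eq_zero, Finset.filter_eq_empty_iff]
      intro u hu
      have := Finset.mem_range.1 hu
      omega
  by_contra hcon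
  push Not at hcon
  have : ∑ u ∈ range q, (c.D * c.win p N j e + 1) ≤ ∑ u ∈ range q, q * c.cross p N (l₀ + u) := by
    refine Finset.sum_le_sum fun u hu => ?_
    have := Finset.mem_range.1 hu
    exact hcon (l₀ + u) (by omega) (by omega)
  rw [← Finset.mul_sum, Finset.sum_const, Finset.card_range, smul_eq_mul] at this
  have := Nat.le_of_mul_le_mul_left this hq
  omega

/-- sums of contributions above a level are integral after scaling -/
lemma IsPath.sum_int {p : ℕ → G} {N : ℕ} (hp : c.IsPath p N) (l : ℤ) (s : Finset ℕ)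
    (hs : ∀ i ∈ s, i < N ∧ l ≤ c.h (p i)) :
    ∃ z : ℤ, ∑ i ∈ s, c.con p i = (c.k : ℚ) ^ (l - c.E) * z := by
  have : ∀ i ∈ s, ∃ z : ℤ, c.con p i = (c.k : ℚ) ^ (l - c.E) * z := by
    intro i hi
    obtain ⟨z, hz⟩ := c.hE _ (hp i (hs i hi).1)
    obtain ⟨d, hd⟩ := Int.le.dest (hs i hi).2
    refine ⟨(c.k : ℤ) ^ d * z, ?_⟩
    rw [con_eq, ← hd, zpow_sub₀ c.k_ne, zpow_add₀ c.k_ne]
    push_cast
    rw [← hz]
    have := c.k_ne
    simp only [zpow_natCast]
    field_simp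
  choose! z hz using this
  refine ⟨∑ i ∈ s, z i, ?_⟩
  rw [Finset.sum_congr rfl hz, ← Finset.mul_sum]
  push_cast
  rfl

lemma IsPath.abs_con {p : ℕ → G} {N : ℕ} (hp : c.IsPath p N) {i : ℕ} (hi : i < N) :
    |c.con p i| ≤ (c.k : ℚ) ^ (c.h (p i)) * c.V := by
  rw [con_eq, abs_mul, abs_of_pos (zpow_pos c.k_pos _)]
  exact mul_le_mul_of_nonneg_left (c.hV _ (hp i hi)) (zpow_pos c.k_pos _).le

end Ctx

end Pool.Agent.P.MP_27e7ce_al
end

-- part Pool.Agent.P.MP_27e7ce_al.Cut2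
section

namespace Pool.Agent.P.MP_27e7ce_al

open Finset

namespace Ctx

variable {G : Type} [Group G] (c : Ctx G)

lemma card_three (N : ℕ) (H : ℕ → ℤ) (l₁ l₂ : ℤ) (h : l₁ ≤ l₂) :
    #{i ∈ range N | H i < l₁} + #{i ∈ range N | l₁ ≤ H i ∧ H i < l₂} +
      #{i ∈ range N | l₂ ≤ H i} = N := by
  simp only [Finset.card_filter, ← Finset.sum_add_distrib]
  conv_rhs => rw [← Finset.card_range N, Finset.card_eq_sum_ones]
  refine Finset.sum_congr rfl fun i _ => ?_
  split_ifs <;> omega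

lemma sum_three (N : ℕ) (H : ℕ → ℤ) (l₁ l₂ : ℤ) (h : l₁ ≤ l₂) (f : ℕ → ℚ) :
    ∑ i ∈ range N with H i < l₁, f i + ∑ i ∈ range N with (l₁ ≤ H i ∧ H i < l₂), f i +
      ∑ i ∈ range N with l₂ ≤ H i, f i = ∑ i ∈ range N, f i := by
  simp only [Finset.sum_filter, ← Finset.sum_add_distrib]
  refine Finset.sum_congr rfl fun i _ => ?_
  split_ifs <;> first | omega | simp

lemma bv_step : ∃ w C : ℕ, 0 < w ∧ ∀ (p : ℕ → G) (N : ℕ), c.IsPath p N → p 0 = 1 →
    c.len (p N) = N → ∀ j : ℤ, 0 ≤ j → j ≤ c.h (p N) → ∀ e : ℕ,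
    2 * c.win p N j e ≤ c.win p N j (e + w) + C * (e + 1) := by
  set τ := c.len c.t with hτ
  set α := c.len c.a with hα
  set q := 8 * c.D * c.D * τ + 1 with hq
  set w := q + c.D with hw
  set b₁ := 4 * α * (c.V + 1) with hb₁
  set C₀ := c.k * α + 2 * τ with hC₀
  refine ⟨w, 2 * (τ * (4 * w + 2 * c.E + 4) + C₀ * (c.E + 2 * w + b₁ + 2)), by omega, ?_⟩
  intro p N hp h0 hN j hj0 hjn e
  set F := c.win p N j (e + w) with hF
  obtain ⟨l₁, a1, a2, a3⟩ := hp.exists_cross j (j - e - q) q (e + w) (by omega)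
    (by push_cast; omega) (by push_cast; omega)
  obtain ⟨l₂, b1, b2, b3⟩ := hp.exists_cross j (j + e) q (e + w) (by omega)
    (by push_cast; omega) (by push_cast; omega)
  have hD := c.D_pos
  have c1 : 8 * (c.D * τ * c.cross p N l₁) ≤ F := by
    have : c.D * (8 * (c.D * τ * c.cross p N l₁)) ≤ c.D * F := by
      refine le_trans ?_ a3
      rw [hq]; nlinarith [Nat.zero_le (c.cross p N l₁)]
    exact Nat.le_of_mul_le_mul_left this hD
  have c2 : 8 * (c.D * τ * c.cross p N l₂) ≤ F := by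
    have : c.D * (8 * (c.D * τ * c.cross p N l₂)) ≤ c.D * F := by
      refine le_trans ?_ b3
      rw [hq]; nlinarith [Nat.zero_le (c.cross p N l₂)]
    exact Nat.le_of_mul_le_mul_left this hD
  obtain ⟨q₁, x1, x2, x3⟩ := hp.low l₁
  obtain ⟨q₂, y1, y2, y3⟩ := hp.high l₂
  rw [h0, h_one] at x3 y3
  have hl₁ : min (c.h (p N)) l₁ = l₁ := by omega
  have hl₂ : max 0 l₂ = l₂ := by omega
  rw [hl₁] at x1
  rw [hl₂] at y3
  set s := {i ∈ range N | l₁ ≤ c.h (p i) ∧ c.h (p i) < l₂} with hs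
  obtain ⟨z, hz⟩ := hp.sum_int l₁ s (fun i hi => by
    rw [hs, Finset.mem_filter, Finset.mem_range] at hi; exact ⟨hi.1, hi.2.1⟩)
  have hsF : #s ≤ F := by
    refine Finset.card_le_card fun i hi => ?_
    rw [hs, Finset.mem_filter] at hi
    rw [Finset.mem_filter]
    refine ⟨hi.1, ?_⟩
    push_cast; omega
  have hes : c.win p N j e ≤ #s := by
    refine Finset.card_le_card fun i hi => ?_
    rw [Finset.mem_filter] at hi
    rw [hs, Finset.mem_filter]
    refine ⟨hi.1, ?_⟩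
    omega
  have hzb : z.natAbs ≤ F * (c.V + 1) * c.k ^ (c.E + 2 * (e + w)) := by
    have h1 : |∑ i ∈ s, c.con p i| ≤ #s * ((c.k : ℚ) ^ (l₁ + 2 * (e + w : ℕ)) * c.V) := by
      refine (Finset.abs_sum_le_sum_abs _ _).trans ?_
      rw [← nsmul_eq_mul]
      refine Finset.sum_le_card_nsmul _ _ _ fun i hi => ?_
      rw [hs, Finset.mem_filter, Finset.mem_range] at hi
      refine (hp.abs_con hi.1).trans (mul_le_mul_of_nonneg_right ?_ (by positivity))
      exact zpow_le_zpow_right₀ c.one_le_k (by push_cast; omega)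
    rw [hz, abs_mul, abs_of_pos (zpow_pos c.k_pos _)] at h1
    have h2 : (c.k : ℚ) ^ (l₁ + 2 * (e + w : ℕ)) =
        (c.k : ℚ) ^ (l₁ - c.E) * (c.k : ℚ) ^ (c.E + 2 * (e + w)) := by
      rw [← zpow_natCast, ← zpow_add₀ c.k_ne]; congr 1; push_cast; ring
    rw [h2] at h1
    have h3 : |(z : ℚ)| ≤ #s * ((c.k : ℚ) ^ (c.E + 2 * (e + w)) * c.V) := by
      have hpos := zpow_pos c.k_pos (l₁ - c.E)
      refine le_of_mul_le_mul_left (h1.trans_eq ?_) hpos
      ring
    have h4 : (z.natAbs : ℚ) ≤ F * (c.V + 1) * (c.k : ℚ) ^ (c.E + 2 * (e + w)) := by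
      rw [Nat.cast_natAbs, Int.cast_abs]
      refine h3.trans ?_
      have : (#s : ℚ) ≤ F := by exact_mod_cast hsF
      have hk := pow_pos c.k_pos (c.E + 2 * (e + w))
      have hV : (0 : ℚ) ≤ c.V := by positivity
      have hF0 : (0 : ℚ) ≤ F := by positivity
      calc (#s : ℚ) * ((c.k : ℚ) ^ (c.E + 2 * (e + w)) * c.V)
          ≤ F * ((c.k : ℚ) ^ (c.E + 2 * (e + w)) * (c.V + 1)) := by gcongr; linarith
        _ = _ := by ring
    exact_mod_cast h4
  have hza : 4 * (α * (z.natAbs / c.k ^ (c.E + 2 * (e + w) + b₁))) ≤ F := by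
    set u := z.natAbs / c.k ^ (c.E + 2 * (e + w) + b₁) with hu
    have h1 : u * c.k ^ (c.E + 2 * (e + w) + b₁) ≤ z.natAbs := Nat.div_mul_le_self _ _
    have hk : 0 < c.k ^ (c.E + 2 * (e + w)) := by have := c.hk; positivity
    have h2 : u * c.k ^ b₁ ≤ F * (c.V + 1) := by
      refine Nat.le_of_mul_le_mul_right ?_ hk
      refine le_trans (le_of_eq ?_) (h1.trans hzb)
      rw [pow_add _ _ b₁]; ring
    have h3 : b₁ ≤ c.k ^ b₁ := (Nat.lt_pow_self (by have := c.hk; omega)).le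
    have h4 : u * b₁ ≤ F * (c.V + 1) := (Nat.mul_le_mul_left u h3).trans h2
    refine Nat.le_of_mul_le_mul_right ?_ (Nat.succ_pos c.V)
    refine le_trans (le_of_eq ?_) h4
    rw [hb₁]; simp only [Nat.succ_eq_add_one]; ring
  have hla := c.len_a_zpow (c.E + 2 * (e + w) + b₁) z
  have heq : p N = c.t ^ (min 0 l₁) * ((c.t ^ (min 0 l₁))⁻¹ * q₁) * c.t ^ (-(c.E : ℤ)) * c.a ^ z *
      c.t ^ (c.E + l₂ - l₁) * ((c.t ^ l₂)⁻¹ * q₂) * c.t ^ (c.h (p N) - max (c.h (p N)) l₂) := by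
    rw [mul_inv_cancel_left]
    apply c.ext'
    · simp only [v_mul', v_t_zpow, v_a_zpow, v_inv, h_mul', h_zpow, h_inv, h_t, h_a, x1, x2, y2]
      have h1 := sum_three N (fun i => c.h (p i)) l₁ l₂ (by omega) (c.con p)
      rw [sum_con, h0, v_one, sub_zero] at h1
      rw [← h1, ← hs, hz]
      have e1 : l₁ + -(c.E : ℤ) * 1 + z * 0 + (c.E + l₂ - l₁) * 1 = l₂ := by ring
      have e2 : l₁ + -(c.E : ℤ) * 1 = l₁ - c.E := by ring
      rw [e1, e2, mul_one, zpow_neg]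
      have := (zpow_pos c.k_pos l₂).ne'
      field_simp
      ring
    · simp only [h_mul', h_zpow, h_inv, h_t, h_a, x1, y1]; ring
  have hlen : N ≤ (min 0 l₁).natAbs * τ + c.len ((c.t ^ (min 0 l₁))⁻¹ * q₁) + c.E * τ +
      c.len (c.a ^ z) + (c.E + l₂ - l₁).natAbs * τ + c.len ((c.t ^ l₂)⁻¹ * q₂) +
      (c.h (p N) - max (c.h (p N)) l₂).natAbs * τ := by
    have t1 := c.len_zpow_le c.t (min 0 l₁)
    have t2 := c.len_zpow_le c.t (-(c.E : ℤ))
    have t3 := c.len_zpow_le c.t (c.E + l₂ - l₁)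
    have t4 := c.len_zpow_le c.t (c.h (p N) - max (c.h (p N)) l₂)
    rw [Int.natAbs_neg, Int.natAbs_natCast] at t2
    rw [← hτ] at t1 t2 t3 t4
    conv_lhs => rw [← hN, heq]
    refine (c.len_mul _ _).trans (Nat.add_le_add ?_ t4)
    refine (c.len_mul _ _).trans (Nat.add_le_add ?_ le_rfl)
    refine (c.len_mul _ _).trans (Nat.add_le_add ?_ t3)
    refine (c.len_mul _ _).trans (Nat.add_le_add ?_ le_rfl)
    refine (c.len_mul _ _).trans (Nat.add_le_add ?_ t2)
    exact (c.len_mul _ _).trans (Nat.add_le_add t1 le_rfl)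
  have u1 : (min 0 l₁).natAbs * τ ≤ (e + w) * τ := Nat.mul_le_mul_right _ (by omega)
  have u2 : (c.E + l₂ - l₁).natAbs * τ ≤ (c.E + 2 * (e + w)) * τ :=
    Nat.mul_le_mul_right _ (by omega)
  have u3 : (c.h (p N) - max (c.h (p N)) l₂).natAbs * τ ≤ (e + w) * τ :=
    Nat.mul_le_mul_right _ (by omega)
  have hc := card_three N (fun i => c.h (p i)) l₁ l₂ (by omega)
  rw [← hs] at hc
  rw [← hτ] at x3 y3
  rw [← hτ, ← hα, ← hC₀] at hla
  have fin : (e + w) * τ + c.E * τ + (c.E + 2 * (e + w)) * τ + (e + w) * τ +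
      C₀ * (c.E + 2 * (e + w) + b₁) ≤
      (τ * (4 * w + 2 * c.E + 4) + C₀ * (c.E + 2 * w + b₁ + 2)) * (e + 1) := by
    have : (τ * (4 * w + 2 * c.E + 4) + C₀ * (c.E + 2 * w + b₁ + 2)) * (e + 1) =
        ((e + w) * τ + c.E * τ + (c.E + 2 * (e + w)) * τ + (e + w) * τ +
        C₀ * (c.E + 2 * (e + w) + b₁)) +
        (τ * (4 + e * (4 * w + 2 * c.E)) + C₀ * (2 + e * (c.E + 2 * w + b₁))) := by ring
    omega
  rw [mul_assoc 2]
  omega

lemma bv : ∃ B : ℕ, ∀ (p : ℕ → G) (N : ℕ), c.IsPath p N → p 0 = 1 →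
    c.len (p N) = N → ∀ j : ℤ, 0 ≤ j → j ≤ c.h (p N) → ∀ e : ℕ,
    c.win p N j e ≤ B * (e + 1) := by
  obtain ⟨w, C, hw, H⟩ := c.bv_step
  refine ⟨(C + 1) + ((C + 1) * w + C), fun p N hp h0 hN j hj0 hjn => ?_⟩
  have key : ∀ n e : ℕ, N ≤ e + n → c.win p N j e ≤ (C + 1) * e + ((C + 1) * w + C) := by
    intro n
    induction n with
    | zero =>
      intro e he
      have : c.win p N j e ≤ N := by
        refine (Finset.card_filter_le _ _).trans (by simp)
      nlinarith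
    | succ n ih =>
      intro e he
      have h1 := ih (e + w) (by omega)
      have h2 := H p N hp h0 hN j hj0 hjn e
      nlinarith
  intro e
  have := key N e (by omega)
  nlinarith [Nat.zero_le (((C + 1) * w + C) * e)]

lemma geom_bound (R : ℕ) : ∑ d ∈ range R, ((d : ℚ) + 2) / 2 ^ d ≤ 6 := by
  have : ∑ d ∈ range R, ((d : ℚ) + 2) / 2 ^ d = 6 - 2 * (R + 3) / 2 ^ R := by
    induction R with
    | zero => norm_num
    | succ R ih => rw [Finset.sum_range_succ, ih]; push_cast; field_simp; ring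
  rw [this]
  have : (0 : ℚ) ≤ 2 * (R + 3) / 2 ^ R := by positivity
  linarith

lemma low_bound : ∃ B : ℕ, ∀ (p : ℕ → G) (N : ℕ), c.IsPath p N → p 0 = 1 →
    c.len (p N) = N → ∀ j : ℤ, 0 ≤ j → j ≤ c.h (p N) → ∀ s : Finset ℕ,
    (∀ i ∈ s, i < N ∧ c.h (p i) ≤ j) → |∑ i ∈ s, c.con p i| ≤ B * (c.k : ℚ) ^ j := by
  obtain ⟨B, hB⟩ := c.bv
  refine ⟨6 * B * c.V, fun p N hp h0 hN j hj0 hjn s hs => ?_⟩
  have hkj := zpow_pos c.k_pos j
  set d : ℕ → ℕ := fun i => (j - c.h (p i)).toNat with hd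
  have h1 : ∀ i ∈ s, |c.con p i| ≤ (c.k : ℚ) ^ j * c.V * (1 / 2 ^ (d i)) := by
    intro i hi
    refine (hp.abs_con (hs i hi).1).trans ?_
    have e : c.h (p i) = j - d i := by have := (hs i hi).2; simp only [hd]; omega
    rw [e, zpow_sub₀ c.k_ne, zpow_natCast]
    have h2 : (2 : ℚ) ^ d i ≤ (c.k : ℚ) ^ d i := pow_le_pow_left₀ (by norm_num) c.two_le_k _
    have hV : (0 : ℚ) ≤ c.V := by positivity
    calc (c.k : ℚ) ^ j / (c.k : ℚ) ^ d i * c.V ≤ (c.k : ℚ) ^ j / 2 ^ d i * c.V := by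
          gcongr
      _ = _ := by ring
  refine (Finset.abs_sum_le_sum_abs _ _).trans ((Finset.sum_le_sum h1).trans ?_)
  rw [← Finset.mul_sum]
  set R := s.sup d + 1 with hR
  have h3 : ∑ i ∈ s, (1 : ℚ) / 2 ^ (d i) ≤ 6 * B := by
    rw [← Finset.sum_fiberwise_of_maps_to (g := d) (t := range R) (fun i hi => by
      have := Finset.le_sup (f := d) hi
      rw [Finset.mem_range]; omega)]
    have h4 : ∀ u ∈ range R, ∑ i ∈ s with d i = u, (1 : ℚ) / 2 ^ (d i) ≤
        B * (((u : ℚ) + 2) / 2 ^ u) := by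
      intro u _
      rw [Finset.sum_congr rfl (g := fun _ => (1 : ℚ) / 2 ^ u) (fun i hi => by
        rw [(Finset.mem_filter.1 hi).2]), Finset.sum_const, nsmul_eq_mul]
      have h5 : #{i ∈ s | d i = u} ≤ c.win p N j (u + 1) := by
        refine Finset.card_le_card fun i hi => ?_
        rw [Finset.mem_filter] at hi
        have := hs i hi.1
        have h6 := hi.2
        simp only [hd] at h6
        rw [Finset.mem_filter, Finset.mem_range]
        refine ⟨this.1, ?_⟩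
        push_cast; omega
      have h6 : (#{i ∈ s | d i = u} : ℚ) ≤ B * (u + 2) := by
        have := h5.trans (hB p N hp h0 hN j hj0 hjn (u + 1))
        exact_mod_cast this
      calc (#{i ∈ s | d i = u} : ℚ) * (1 / 2 ^ u) ≤ B * (u + 2) * (1 / 2 ^ u) := by gcongr
        _ = _ := by ring
    refine (Finset.sum_le_sum h4).trans ?_
    rw [← Finset.mul_sum, mul_comm]
    exact mul_le_mul_of_nonneg_right (geom_bound R) (by positivity)
  calc (c.k : ℚ) ^ j * c.V * ∑ i ∈ s, (1 : ℚ) / 2 ^ (d i) ≤ (c.k : ℚ) ^ j * c.V * (6 * B) := by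
        gcongr
    _ = _ := by push_cast; ring

end Ctx

end Pool.Agent.P.MP_27e7ce_al
end

-- part Pool.Agent.P.MP_27e7ce_al.Cut3
section

namespace Pool.Agent.P.MP_27e7ce_al

open Finset

namespace Ctx

variable {G : Type} [Group G] (c : Ctx G)

lemma sum_two (N : ℕ) (H : ℕ → ℤ) (l : ℤ) (f : ℕ → ℚ) :
    ∑ i ∈ range N with H i < l, f i + ∑ i ∈ range N with l ≤ H i, f i = ∑ i ∈ range N, f i := by
  simp only [Finset.sum_filter, ← Finset.sum_add_distrib]
  refine Finset.sum_congr rfl fun i _ => ?_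
  split_ifs <;> first | omega | simp

lemma card_two (N : ℕ) (H : ℕ → ℤ) (l : ℤ) :
    #{i ∈ range N | H i < l} + #{i ∈ range N | l ≤ H i} = N := by
  simp only [Finset.card_filter, ← Finset.sum_add_distrib]
  conv_rhs => rw [← Finset.card_range N, Finset.card_eq_sum_ones]
  refine Finset.sum_congr rfl fun i _ => ?_
  split_ifs <;> omega

/-- The cutting lemma. -/
lemma cut : ∃ C : ℕ, ∀ (g : G) (j : ℤ), 0 ≤ j → j ≤ c.h g → ∀ y : ℤ,
    |c.v g - (c.k : ℚ) ^ j * y| ≤ (c.k : ℚ) ^ j →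
    c.len (g * (c.el y (c.h g - j))⁻¹) + c.len (c.el y (c.h g - j)) ≤ c.len g + C := by
  obtain ⟨B, hB⟩ := c.bv
  obtain ⟨B₁, hB₁⟩ := c.low_bound
  set τ := c.len c.t with hτ
  set α := c.len c.a with hα
  refine ⟨2 * (c.D * τ * (B * (c.D + 1))) + 2 * (2 * c.E * τ + c.k ^ c.E * (1 + B₁) * α), ?_⟩
  intro g j hj0 hjn y hy
  obtain ⟨p, h0, hN, hp⟩ := c.path g
  have hp : c.IsPath p (c.len g) := hp
  set N := c.len g with hNdef
  have hN' : c.len (p N) = N := by rw [hN]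
  have hjn' : j ≤ c.h (p N) := by rw [hN]; exact hjn
  obtain ⟨q₁, x1, x2, x3⟩ := hp.low j
  obtain ⟨q₂, y1, y2, y3⟩ := hp.high j
  rw [h0, h_one] at x3 y3
  rw [hN] at x1 y1
  rw [min_eq_right hjn] at x1
  rw [max_eq_left hjn] at y1
  rw [min_eq_left hj0, zpow_zero, inv_one, one_mul] at x3
  rw [max_eq_right hj0] at y3
  have hcr : c.cross p N j ≤ B * (c.D + 1) := by
    refine le_trans (Finset.card_le_card fun i hi => ?_) (hB p N hp h0 hN' j hj0 hjn' c.D)
    rw [Finset.mem_filter] at hi ⊢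
    have hs := abs_le.1 (hp.step (Finset.mem_range.1 hi.1))
    refine ⟨hi.1, ?_⟩
    omega
  obtain ⟨z', hz'⟩ := hp.sum_int j {i ∈ range N | j ≤ c.h (p i)} (fun i hi => by
    rw [Finset.mem_filter, Finset.mem_range] at hi; exact hi)
  have hlow := hB₁ p N hp h0 hN' j hj0 hjn' {i ∈ range N | c.h (p i) < j} (fun i hi => by
    rw [Finset.mem_filter, Finset.mem_range] at hi; exact ⟨hi.1, hi.2.le⟩)
  have hsum := sum_two N (fun i => c.h (p i)) j (c.con p)
  rw [sum_con, h0, v_one, sub_zero, hN, ← x2, ← y2] at hsum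
  rw [← x2] at hlow
  rw [← y2] at hz'
  set z : ℤ := z' - (c.k : ℤ) ^ c.E * y with hz
  have hkj := zpow_pos c.k_pos j
  have hkE := pow_pos c.k_pos c.E
  have hzq : (c.k : ℚ) ^ j * z = (c.k : ℚ) ^ c.E * (c.v g - (c.k : ℚ) ^ j * y - c.v q₁) := by
    rw [← hsum, hz', hz, zpow_sub₀ c.k_ne, zpow_natCast]
    push_cast
    field_simp
    ring
  have hzb : z.natAbs ≤ c.k ^ c.E * (1 + B₁) := by
    have h1 : (c.k : ℚ) ^ j * |(z : ℚ)| ≤ (c.k : ℚ) ^ j * ((c.k : ℚ) ^ c.E * (1 + B₁)) := by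
      rw [← abs_of_pos hkj, ← abs_mul, hzq, abs_mul, abs_of_pos hkE, abs_of_pos hkj]
      have := abs_sub (c.v g - (c.k : ℚ) ^ j * y) (c.v q₁)
      calc (c.k : ℚ) ^ c.E * |c.v g - (c.k : ℚ) ^ j * y - c.v q₁|
          ≤ (c.k : ℚ) ^ c.E * ((c.k : ℚ) ^ j + B₁ * (c.k : ℚ) ^ j) := by gcongr; linarith
        _ = _ := by ring
    have h2 := le_of_mul_le_mul_left h1 hkj
    have h3 : (z.natAbs : ℚ) ≤ (c.k : ℚ) ^ c.E * (1 + B₁) := by
      rw [Nat.cast_natAbs, Int.cast_abs]; exact h2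
    exact_mod_cast h3
  set u : G := c.t ^ (-(c.E : ℤ)) * c.a ^ z * c.t ^ (c.E : ℤ) with hu
  have hul : c.len u ≤ 2 * c.E * τ + c.k ^ c.E * (1 + B₁) * α := by
    have t1 := c.len_mul3 (c.t ^ (-(c.E : ℤ))) (c.a ^ z) (c.t ^ (c.E : ℤ))
    have t2 := c.len_zpow_le c.t (-(c.E : ℤ))
    have t3 := c.len_zpow_le c.t (c.E : ℤ)
    have t4 := c.len_zpow_le c.a z
    have t5 : z.natAbs * α ≤ c.k ^ c.E * (1 + B₁) * α := Nat.mul_le_mul_right _ hzb
    rw [Int.natAbs_neg, Int.natAbs_natCast] at t2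
    rw [Int.natAbs_natCast] at t3
    rw [← hτ] at t2 t3
    rw [← hα] at t4
    rw [← hu] at t1
    linarith
  have hvu : (c.k : ℚ) ^ j * c.v u = c.v g - (c.k : ℚ) ^ j * y - c.v q₁ := by
    have : c.v u = (c.k : ℚ) ^ (-(c.E : ℤ)) * z := by
      simp [hu, v_mul', v_inv, v_t_pow]
    rw [this, zpow_neg, zpow_natCast]
    have h1 : (c.k : ℚ) ^ j * (((c.k : ℚ) ^ c.E)⁻¹ * z) = ((c.k : ℚ) ^ c.E)⁻¹ * ((c.k : ℚ) ^ j * z) := by
      ring
    rw [h1, hzq]
    field_simp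
  have hhu : c.h u = 0 := by simp [hu]
  have e1 : g * (c.el y (c.h g - j))⁻¹ = q₁ * u := by
    rw [mul_inv_eq_iff_eq_mul]
    apply c.ext'
    · simp only [v_mul', h_mul', v_el, x1, hhu, add_zero]
      linarith
    · simp [x1, hhu]
  have e2 : c.el y (c.h g - j) = u⁻¹ * ((c.t ^ j)⁻¹ * q₂) := by
    rw [eq_inv_mul_iff_mul_eq, eq_inv_mul_iff_mul_eq]
    apply c.ext'
    · simp only [v_mul', v_el, hhu, v_t_zpow, h_zpow, h_t, mul_one, zpow_zero, one_mul,
        zero_add]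
      linarith
    · simp [y1, hhu]
  have l1 := c.len_mul q₁ u
  have l2 := c.len_mul u⁻¹ ((c.t ^ j)⁻¹ * q₂)
  rw [c.len_inv] at l2
  rw [e1]
  rw [← e2] at l2
  have hc := card_two N (fun i => c.h (p i)) j
  have l3 : c.D * τ * c.cross p N j ≤ c.D * τ * (B * (c.D + 1)) := Nat.mul_le_mul_left _ hcr
  rw [← hτ] at x3 y3
  omega

/-- length of the digit string of `u` of size `m` -/
def L (u : ℤ) (m : ℕ) : ℕ := c.len (c.el u m)

lemma el_mul (u w : ℤ) (m n : ℕ) :
    c.el u m * c.el w n = c.el (u + (c.k : ℤ) ^ m * w) ((m + n : ℕ) : ℤ) := by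
  apply c.ext'
  · simp [v_mul']
  · simp

lemma L_sub (u w : ℤ) (m n : ℕ) : c.L (u + (c.k : ℤ) ^ m * w) (m + n) ≤ c.L u m + c.L w n := by
  rw [L, ← el_mul]; exact c.len_mul _ _

lemma le_L (u : ℤ) (m : ℕ) : m ≤ c.D * c.L u m := by
  have := c.h_le_len (c.el u m)
  rw [h_el, Nat.abs_cast] at this
  exact_mod_cast this

/-- The properties of the constant in the cutting lemma used later. -/
structure CutConst (C : ℕ) : Prop where
  add : ∀ (u w : ℤ) (m n : ℕ), 0 ≤ u → u < (c.k : ℤ) ^ m →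
    c.L u m + c.L w n ≤ c.L (u + (c.k : ℤ) ^ m * w) (m + n) + C
  red : ∀ (g : G) (m : ℕ), c.h g = m → c.L (⌊c.v g⌋ % (c.k : ℤ) ^ m) m ≤ c.len g + C
  shift : ∀ (u : ℤ) (i m : ℕ), i ≤ m →
    c.L ((u + (c.k : ℤ) ^ i) % (c.k : ℤ) ^ m) m ≤ c.L u m + C

lemma exists_cutConst : ∃ C, c.CutConst C := by
  obtain ⟨C, hC⟩ := c.cut
  have kpos : ∀ m : ℕ, (0 : ℤ) < (c.k : ℤ) ^ m := fun m => by have := c.hk; positivity
  have add : ∀ (u w : ℤ) (m n : ℕ), 0 ≤ u → u < (c.k : ℤ) ^ m →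
      c.L u m + c.L w n ≤ c.L (u + (c.k : ℤ) ^ m * w) (m + n) + C := by
    intro u w m n hu hu'
    have h1 := hC (c.el (u + (c.k : ℤ) ^ m * w) ((m + n : ℕ) : ℤ)) m (by positivity)
      (by simp) w (by
        rw [v_el]; push_cast
        rw [zpow_natCast, add_sub_cancel_right, abs_of_nonneg (by exact_mod_cast hu)]
        exact_mod_cast hu'.le)
    have e : c.h (c.el (u + (c.k : ℤ) ^ m * w) ((m + n : ℕ) : ℤ)) - m = n := by simp
    rw [e, ← el_mul, mul_inv_cancel_right, el_mul] at h1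
    exact h1
  have red : ∀ (g : G) (m : ℕ), c.h g = m →
      c.L (⌊c.v g⌋ % (c.k : ℤ) ^ m) m ≤ c.len g + 2 * C := by
    intro g m hm
    have h1 := hC g 0 le_rfl (by omega) ⌊c.v g⌋ (by
      rw [zpow_zero, one_mul, abs_le]
      have := Int.floor_le (c.v g)
      have := Int.lt_floor_add_one (c.v g)
      constructor <;> linarith)
    rw [sub_zero, hm] at h1
    have h2 := add (⌊c.v g⌋ % (c.k : ℤ) ^ m) (⌊c.v g⌋ / (c.k : ℤ) ^ m) m 0
      (Int.emod_nonneg _ (kpos m).ne') (Int.emod_lt_of_pos _ (kpos m))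
    rw [Int.emod_add_mul_ediv, add_zero] at h2
    unfold L at h2 ⊢
    omega
  refine ⟨3 * C + c.len c.a, ⟨fun u w m n hu hu' => ?_, fun g m hm => ?_, fun u i m him => ?_⟩⟩
  · have := add u w m n hu hu'; omega
  · have := red g m hm; omega
  · obtain ⟨n, rfl⟩ := Nat.exists_eq_add_of_le him
    have h1 := add (u % (c.k : ℤ) ^ i) (u / (c.k : ℤ) ^ i) i n
      (Int.emod_nonneg _ (kpos i).ne') (Int.emod_lt_of_pos _ (kpos i))
    rw [Int.emod_add_mul_ediv] at h1
    have h2 := red (c.el (u % (c.k : ℤ) ^ i) i * c.a * c.el (u / (c.k : ℤ) ^ i) n) (i + n)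
      (by simp)
    have h3 : c.v (c.el (u % (c.k : ℤ) ^ i) i * c.a * c.el (u / (c.k : ℤ) ^ i) n) =
        ((u + (c.k : ℤ) ^ i : ℤ) : ℚ) := by
      simp only [v_mul', v_el, h_mul', h_el, h_a, c.va, add_zero, zpow_natCast]
      conv_rhs => rw [← Int.emod_add_mul_ediv u ((c.k : ℤ) ^ i)]
      push_cast; ring
    rw [h3, Int.floor_intCast] at h2
    have h4 := c.len_mul3 (c.el (u % (c.k : ℤ) ^ i) i) c.a (c.el (u / (c.k : ℤ) ^ i) n)
    unfold L at h1 h2 ⊢
    omega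

variable {c}

/-- stable length: conjugation cannot shorten a digit string by more than a constant -/
lemma CutConst.conj {C : ℕ} (hC : c.CutConst C) (u : ℤ) (m : ℕ) (hu : 0 ≤ u)
    (hu' : u < (c.k : ℤ) ^ m) (g : G) (hg : IsConj g (c.el u m)) : c.L u m ≤ c.len g + C := by
  have key : ∀ N : ℕ, ∃ w : ℤ, (c.el u m) ^ N = c.el w ((m * N : ℕ) : ℤ) ∧
      N * c.L u m ≤ c.L w (m * N) + N * C := by
    intro N
    induction N with
    | zero => exact ⟨0, by simp [el], by simp⟩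
    | succ N ih =>
      obtain ⟨w, h1, h2⟩ := ih
      refine ⟨u + (c.k : ℤ) ^ m * w, ?_, ?_⟩
      · rw [pow_succ', h1, el_mul]; congr 2; ring
      · have h3 := hC.add u w m (m * N) hu hu'
        have e : m * (N + 1) = m + m * N := by ring
        rw [e]
        nlinarith
  obtain ⟨y, hy⟩ := isConj_iff.1 hg
  by_contra hcon
  push Not at hcon
  obtain ⟨w, h1, h2⟩ := key (2 * c.len y + 1)
  have h3 : c.L w (m * (2 * c.len y + 1)) ≤ (2 * c.len y + 1) * c.len g + 2 * c.len y := by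
    rw [L, ← h1, ← hy, conj_pow]
    have t1 := c.len_mul3 y (g ^ (2 * c.len y + 1)) y⁻¹
    have t2 := c.len_pow_le g (2 * c.len y + 1)
    rw [c.len_inv] at t1
    omega
  have h4 : (2 * c.len y + 1) * (c.len g + C + 1) ≤ (2 * c.len y + 1) * c.L u m :=
    Nat.mul_le_mul_left _ hcon
  nlinarith

end Ctx

end Pool.Agent.P.MP_27e7ce_al
end

-- part Pool.Agent.P.MP_27e7ce_al.Radius
section

namespace Pool.Agent.P.MP_27e7ce_al

open Finset

lemma sum_range_mul' (a b : ℕ) (F : ℕ → ℝ) :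
    ∑ i ∈ range (a * b), F i = ∑ w ∈ range b, ∑ u ∈ range a, F (u + a * w) := by
  induction b with
  | zero => simp
  | succ b ih =>
    rw [Nat.mul_succ, Finset.sum_range_add, ih, Finset.sum_range_succ]
    simp only [add_comm]

namespace Ctx

variable {G : Type} [Group G] (c : Ctx G)

/-- generating polynomial of digit strings of size `m` -/
noncomputable def A (m : ℕ) (x : ℝ) : ℝ := ∑ u ∈ range (c.k ^ m), x ^ (c.L (u : ℕ) m)

lemma A_nonneg (m : ℕ) {x : ℝ} (hx : 0 ≤ x) : 0 ≤ c.A m x :=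
  Finset.sum_nonneg fun _ _ => pow_nonneg hx _

lemma A_zero (x : ℝ) : c.A 0 x = 1 := by
  simp [A, L, el, c.len_one]

lemma A_continuous (m : ℕ) : Continuous (c.A m) := by
  unfold A; fun_prop

lemma A_add (m n : ℕ) (x : ℝ) : c.A (m + n) x =
    ∑ w ∈ range (c.k ^ n), ∑ u ∈ range (c.k ^ m),
      x ^ (c.L ((u : ℤ) + (c.k : ℤ) ^ m * (w : ℕ)) (m + n)) := by
  rw [A, pow_add, sum_range_mul']
  simp

lemma A_super (m n : ℕ) {x : ℝ} (hx : 0 ≤ x) (hx1 : x ≤ 1) :
    c.A m x * c.A n x ≤ c.A (m + n) x := by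
  rw [A_add, A, A, mul_comm, Finset.sum_mul_sum]
  refine Finset.sum_le_sum fun w _ => Finset.sum_le_sum fun u _ => ?_
  rw [← pow_add]
  refine pow_le_pow_of_le_one hx hx1 ?_
  have := c.L_sub u w m n
  omega

lemma A_scale (m : ℕ) {r ρ : ℝ} (hr : 0 ≤ r) (hρ : 0 ≤ ρ) (hρ1 : ρ ≤ 1) :
    c.A m (r * ρ ^ c.D) ≤ ρ ^ m * c.A m r := by
  rw [A, A, Finset.mul_sum]
  refine Finset.sum_le_sum fun u _ => ?_
  rw [mul_pow, ← pow_mul, mul_comm]
  exact mul_le_mul_of_nonneg_right (pow_le_pow_of_le_one hρ hρ1 (c.le_L _ _)) (pow_nonneg hr _)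

variable {c}

lemma CutConst.A_sub {C : ℕ} (hC : c.CutConst C) (m n : ℕ) {x : ℝ} (hx : 0 ≤ x) (hx1 : x ≤ 1) :
    x ^ C * c.A (m + n) x ≤ c.A m x * c.A n x := by
  rw [A_add, A, A, mul_comm (∑ u ∈ range (c.k ^ m), _), Finset.sum_mul_sum, Finset.mul_sum]
  refine Finset.sum_le_sum fun w _ => ?_
  rw [Finset.mul_sum]
  refine Finset.sum_le_sum fun u hu => ?_
  rw [← pow_add, ← pow_add]
  refine pow_le_pow_of_le_one hx hx1 ?_
  have := hC.add u w m n (by positivity) (by exact_mod_cast Finset.mem_range.1 hu)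
  omega

lemma CutConst.exists_radius {C : ℕ} (hC : c.CutConst C) :
    ∃ r : ℝ, 0 < r ∧ r < 1 ∧ ∀ m, c.A m r ≤ 1 ∧ r ^ C ≤ c.A m r := by
  set E : Set ℝ := Set.Icc 0 1 ∩ ⋂ m, {x | c.A m x ≤ 1} with hE
  have hEc : IsCompact E := isCompact_Icc.inter_right
    (isClosed_iInter fun m => isClosed_le (c.A_continuous m) continuous_const)
  have hk : (2 : ℝ) ≤ c.k := by exact_mod_cast c.hk
  have hk0 : (0 : ℝ) < c.k := by linarith
  have hinv : (0 : ℝ) < (c.k : ℝ)⁻¹ := inv_pos.2 hk0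
  have hinv1 : (c.k : ℝ)⁻¹ ≤ 1 := inv_le_one_of_one_le₀ (by linarith)
  have h0 : (1 * (c.k : ℝ)⁻¹ ^ c.D) ∈ E := by
    refine ⟨⟨by positivity, by rw [one_mul]; exact pow_le_one₀ hinv.le hinv1⟩,
      Set.mem_iInter.2 fun m => ?_⟩
    refine (c.A_scale m zero_le_one hinv.le hinv1).trans (le_of_eq ?_)
    simp only [A, one_pow, Finset.sum_const, Finset.card_range, nsmul_eq_mul, mul_one]
    push_cast
    rw [← mul_pow, inv_mul_cancel₀ hk0.ne', one_pow]
  obtain ⟨r, hrE, hr⟩ := hEc.exists_isGreatest ⟨_, h0⟩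
  have hr0 : 0 < r := lt_of_lt_of_le (by positivity) (hr h0)
  have hrA : ∀ m, c.A m r ≤ 1 := fun m => Set.mem_iInter.1 hrE.2 m
  have hr1 : r < 1 := by
    refine lt_of_le_of_ne hrE.1.2 fun h => ?_
    have := hrA 1
    rw [h] at this
    simp only [A, one_pow, Finset.sum_const, Finset.card_range, nsmul_eq_mul, mul_one,
      pow_one] at this
    linarith
  refine ⟨r, hr0, hr1, fun m => ⟨hrA m, ?_⟩⟩
  by_contra hcon
  push Not at hcon
  have hopen : IsOpen ({x : ℝ | c.A m x < x ^ C} ∩ Set.Iio 1) :=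
    (isOpen_lt (c.A_continuous m) (by fun_prop)).inter isOpen_Iio
  obtain ⟨x, hx, hrx⟩ : ∃ x ∈ ({x : ℝ | c.A m x < x ^ C} ∩ Set.Iio 1), r < x := by
    obtain ⟨ε, hε, hb⟩ := Metric.isOpen_iff.1 hopen r ⟨hcon, hr1⟩
    refine ⟨r + ε / 2, hb ?_, by linarith⟩
    rw [Metric.mem_ball, Real.dist_eq, add_sub_cancel_left, abs_of_pos (by linarith)]
    linarith
  have hx0 : 0 < x := hr0.trans hrx
  have hx1 : x ≤ 1 := le_of_lt hx.2
  have hxC : 0 < x ^ C := pow_pos hx0 _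
  set β := c.A m x / x ^ C with hβ
  have hβ1 : β < 1 := (div_lt_one hxC).2 hx.1
  have hβ0 : 0 ≤ β := div_nonneg (c.A_nonneg m hx0.le) hxC.le
  have up : ∀ j : ℕ, c.A (j * m) x ≤ β ^ j := by
    intro j
    induction j with
    | zero => simp [A_zero]
    | succ j ih =>
      have h1 := hC.A_sub (j * m) m hx0.le hx1
      rw [Nat.succ_mul, pow_succ]
      have h2 : c.A (j * m + m) x ≤ c.A (j * m) x * β := by
        rw [hβ, ← mul_div_assoc, le_div_iff₀ hxC]; linarith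
      exact h2.trans (mul_le_mul_of_nonneg_right ih hβ0)
  have hxE : x ∈ E := by
    refine ⟨⟨hx0.le, hx1⟩, Set.mem_iInter.2 fun n => ?_⟩
    by_contra hn
    have hn : 1 < c.A n x := not_le.1 hn
    have low : ∀ j : ℕ, 1 ≤ c.A (n * j) x := by
      intro j
      induction j with
      | zero => simp [A_zero]
      | succ j ih =>
        have h1 := c.A_super (n * j) n hx0.le hx1
        rw [Nat.mul_succ]
        nlinarith
    have hn0 : n ≠ 0 := by
      rintro rfl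
      rw [A_zero] at hn
      exact lt_irrefl _ hn
    have := (low m).trans (up n)
    have := pow_lt_one₀ hβ0 hβ1 hn0
    linarith
  exact absurd (hr hxE) (not_le.2 hrx)

end Ctx

end Pool.Agent.P.MP_27e7ce_al
end

-- part Pool.Agent.P.MP_27e7ce_al.Pos
section

namespace Pool.Agent.P.MP_27e7ce_al

open Finset

/-- pairwise non-conjugate -/
def NC {G : Type} [Group G] (F : Finset G) : Prop := ∀ g ∈ F, ∀ g' ∈ F, IsConj g g' → g = g'

lemma sum_le_of_inj {α β : Type} (s : Finset α) (t : Finset β) (φ : α → β) (f : α → ℝ)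
    (g : β → ℝ) (hm : ∀ a ∈ s, φ a ∈ t) (hi : Set.InjOn φ s) (hf : ∀ a ∈ s, f a ≤ g (φ a))
    (hg : ∀ b ∈ t, 0 ≤ g b) : ∑ a ∈ s, f a ≤ ∑ b ∈ t, g b := by
  classical
  calc ∑ a ∈ s, f a ≤ ∑ a ∈ s, g (φ a) := Finset.sum_le_sum hf
    _ = ∑ b ∈ s.image φ, g b := (Finset.sum_image hi).symm
    _ ≤ ∑ b ∈ t, g b := Finset.sum_le_sum_of_subset_of_nonneg
        (Finset.image_subset_iff.2 hm) fun b hb _ => hg b hb

namespace Ctx

variable {G : Type} [Group G] (c : Ctx G)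

lemma v_conj (y g : G) :
    c.v (y * g * y⁻¹) = (c.k : ℚ) ^ (c.h y) * c.v g + (1 - (c.k : ℚ) ^ (c.h g)) * c.v y := by
  simp only [v_mul', v_inv, h_mul']
  rw [zpow_add₀ c.k_ne, zpow_neg]
  have := (zpow_pos c.k_pos (c.h y)).ne'
  field_simp
  ring

lemma h_conj {g g' : G} (h : IsConj g g') : c.h g = c.h g' := by
  obtain ⟨y, rfl⟩ := isConj_iff.1 h
  simp

lemma conj_el_mod (u u' : ℤ) (m : ℕ) (h : u ≡ u' [ZMOD (c.k : ℤ) ^ m - 1]) :
    IsConj (c.el u m) (c.el u' m) := by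
  obtain ⟨w, hw⟩ := h.dvd
  refine isConj_iff.2 ⟨c.a ^ (-w), c.ext' _ _ ?_ (by simp)⟩
  rw [v_conj]
  simp only [h_zpow, h_a, mul_zero, zpow_zero, v_el, h_el, v_a_zpow, zpow_natCast]
  have : (u' : ℚ) - u = ((c.k : ℚ) ^ m - 1) * w := by exact_mod_cast hw
  push_cast
  linarith

lemma conj_el_rot (u : ℤ) (m : ℤ) (i : ℕ) :
    IsConj (c.el u m) (c.el ((c.k : ℤ) ^ i * u) m) := by
  refine isConj_iff.2 ⟨c.t ^ (i : ℤ), c.ext' _ _ ?_ (by simp)⟩
  rw [v_conj]
  simp [v_t_pow]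

lemma exists_conj_int (g : G) : ∃ z : ℤ, IsConj g (c.el z (c.h g)) := by
  obtain ⟨e, z, hz⟩ := c.frac g
  refine ⟨z, isConj_iff.2 ⟨c.t ^ (e : ℤ), c.ext' _ _ ?_ (by simp)⟩⟩
  rw [v_conj]
  simp [v_t_pow, ← hz, mul_comm]

lemma Q_pos {m : ℕ} (hm : 1 ≤ m) : (0 : ℤ) < (c.k : ℤ) ^ m - 1 := by
  have h1 : (2 : ℤ) ≤ c.k := by exact_mod_cast c.hk
  have := one_lt_pow₀ (show (1 : ℤ) < c.k by omega) (show m ≠ 0 by omega)
  omega

lemma exists_conj_red (g : G) {m : ℕ} (hm : 1 ≤ m) (hg : c.h g = m) :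
    ∃ u : ℤ, 0 ≤ u ∧ u < (c.k : ℤ) ^ m - 1 ∧ IsConj g (c.el u m) := by
  obtain ⟨z, hz⟩ := c.exists_conj_int g
  rw [hg] at hz
  exact ⟨z % ((c.k : ℤ) ^ m - 1), Int.emod_nonneg _ (c.Q_pos hm).ne',
    Int.emod_lt_of_pos _ (c.Q_pos hm),
    hz.trans (c.conj_el_mod _ _ m (Int.mod_modEq _ _).symm)⟩

lemma mem_range_toNat {u : ℤ} {m : ℕ} (h0 : 0 ≤ u) (h1 : u < (c.k : ℤ) ^ m) :
    u.toNat ∈ range (c.k ^ m) := by
  rw [Finset.mem_range]
  have : (u.toNat : ℤ) < ((c.k ^ m : ℕ) : ℤ) := by push_cast; omega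
  exact_mod_cast this

variable {c}

lemma CutConst.pos_part {C : ℕ} (hC : c.CutConst C) {m : ℕ} (hm : 1 ≤ m) (F : Finset G)
    (hF : NC F) (hh : ∀ g ∈ F, c.h g = m) {x s : ℝ} (hx : 0 ≤ x) (hx1 : x ≤ 1) (hs : 0 ≤ s)
    (hs1 : s ≤ 1) (hxs : x ≤ s ^ (2 * c.D)) (hA : ∀ d, c.A d x ≤ 1) :
    x ^ (2 * C) * ∑ g ∈ F, x ^ c.len g ≤ 2 / m * c.A m x + (m + 1) * s ^ m := by
  classical
  choose! u hu0 hu1 hu using fun g (hg : g ∈ F) => c.exists_conj_red g hm (hh g hg)
  set Q : ℤ := (c.k : ℤ) ^ m - 1 with hQ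
  have hQ0 : 0 < Q := c.Q_pos hm
  set rot : ℕ → G → ℤ := fun i g => ((c.k : ℤ) ^ i * u g) % Q with hrot
  have rot0 : ∀ i g, 0 ≤ rot i g := fun i g => Int.emod_nonneg _ hQ0.ne'
  have rot1 : ∀ i g, rot i g < (c.k : ℤ) ^ m := fun i g =>
    (Int.emod_lt_of_pos _ hQ0).trans (by omega)
  have rotc : ∀ i, ∀ g ∈ F, IsConj g (c.el (rot i g) m) := fun i g hg =>
    ((hu g hg).trans (c.conj_el_rot _ _ i)).trans (c.conj_el_mod _ _ m (Int.mod_modEq _ _).symm)
  set good : G → Prop := fun g => Set.InjOn (fun i => rot i g) (range (m / 2 + 1)) with hgood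
  rw [← Finset.sum_filter_add_sum_filter_not F good, mul_add]
  have hxC : x ^ (2 * C) ≤ x ^ C := pow_le_pow_of_le_one hx hx1 (by omega)
  refine add_le_add ?_ ?_
  · have h1 : ∑ p ∈ (F.filter good) ×ˢ range (m / 2 + 1), x ^ C * x ^ c.len p.1 ≤ c.A m x := by
      refine sum_le_of_inj _ _ (fun p => (rot p.2 p.1).toNat) _ _
        (fun p _ => c.mem_range_toNat (rot0 _ _) (rot1 _ _)) ?_ ?_ (fun _ _ => pow_nonneg hx _)
      · rintro ⟨g, i⟩ hp ⟨g', i'⟩ hp' h
        simp only [Finset.coe_product, Set.mem_prod, Finset.coe_filter, Set.mem_ofPred_eq] at hp hp'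
        have e : rot i g = rot i' g' := by
          have := rot0 i g
          have := rot0 i' g'
          simp only at h
          omega
        have e2 : g = g' := hF g hp.1.1 g' hp'.1.1
          ((rotc i g hp.1.1).trans (by rw [e]; exact (rotc i' g' hp'.1.1).symm))
        subst e2
        rw [hp.1.2 hp.2 hp'.2 e]
      · rintro ⟨g, i⟩ hp
        simp only [Finset.mem_product, Finset.mem_filter] at hp
        rw [← pow_add, Int.toNat_of_nonneg (rot0 _ _)]
        refine pow_le_pow_of_le_one hx hx1 ?_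
        have := hC.conj (rot i g) m (rot0 _ _) (rot1 _ _) g (rotc i g hp.1.1)
        simp only
        omega
    rw [Finset.sum_product] at h1
    simp only [Finset.sum_const, Finset.card_range, nsmul_eq_mul] at h1
    rw [← Finset.mul_sum, ← Finset.mul_sum] at h1
    have hS : 0 ≤ ∑ g ∈ F with good g, x ^ c.len g :=
      Finset.sum_nonneg fun _ _ => pow_nonneg hx _
    have hm0 : (0 : ℝ) < m := by exact_mod_cast hm
    have h2 : (m : ℝ) ≤ 2 * ((m / 2 + 1 : ℕ) : ℝ) := by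
      exact_mod_cast (by omega : m ≤ 2 * (m / 2 + 1))
    rw [div_mul_eq_mul_div, le_div_iff₀ hm0]
    have h3 : 0 ≤ x ^ C * ∑ g ∈ F with good g, x ^ c.len g := mul_nonneg (pow_nonneg hx _) hS
    calc (x ^ (2 * C) * ∑ g ∈ F with good g, x ^ c.len g) * m
        ≤ (x ^ C * ∑ g ∈ F with good g, x ^ c.len g) * (2 * ((m / 2 + 1 : ℕ) : ℝ)) := by
          gcongr
      _ ≤ 2 * c.A m x := by nlinarith
  · have hbad : ∀ g ∈ F.filter (fun g => ¬ good g), ∃ d : ℕ, 1 ≤ d ∧ d ≤ m / 2 ∧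
        ((c.k : ℤ) ^ d - 1) * u g = Q * (u g % (c.k : ℤ) ^ d) := by
      intro g hg
      rw [Finset.mem_filter] at hg
      have hg2 := hg.2
      simp only [hgood, Set.InjOn, not_forall] at hg2
      obtain ⟨i, hi, i', hi', he, hne⟩ := hg2
      wlog hlt : i < i' generalizing i i'
      · exact this i' hi' i hi he.symm (Ne.symm hne) (by omega)
      simp only [Finset.coe_range, Set.mem_Iio] at hi hi'
      obtain ⟨d, rfl⟩ := Nat.exists_eq_add_of_le hlt.le
      obtain ⟨n, hn⟩ := Nat.exists_eq_add_of_le (show i ≤ m by omega)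
      have h1 : (c.k : ℤ) ^ i * u g ≡ (c.k : ℤ) ^ (i + d) * u g [ZMOD Q] := he
      have h2 := (h1.mul_left ((c.k : ℤ) ^ n)).dvd
      have h3 : Q ∣ ((c.k : ℤ) ^ d - 1) * u g := by
        have e : (c.k : ℤ) ^ n * ((c.k : ℤ) ^ (i + d) * u g) - (c.k : ℤ) ^ n * ((c.k : ℤ) ^ i * u g) =
            ((c.k : ℤ) ^ d - 1) * u g + Q * (((c.k : ℤ) ^ d - 1) * u g) := by
          rw [hQ, hn]; ring
        rw [e] at h2
        exact (dvd_add_left (dvd_mul_right Q _)).1 h2
      obtain ⟨w, hw⟩ := h3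
      refine ⟨d, by omega, by omega, ?_⟩
      have hd0 : 0 < (c.k : ℤ) ^ d - 1 := c.Q_pos (by omega)
      have hw0 : 0 ≤ w := by
        by_contra hneg
        have := hu0 g hg.1
        nlinarith
      have hw1 : w < (c.k : ℤ) ^ d := by
        by_contra hneg
        have := hu1 g hg.1
        nlinarith
      obtain ⟨n', hn'⟩ := Nat.exists_eq_add_of_le (show d ≤ m by omega)
      have h4 : u g = w + (c.k : ℤ) ^ d * (u g - (c.k : ℤ) ^ n' * w) := by
        rw [hQ, hn', pow_add] at hw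
        linarith
      have h5 : u g % (c.k : ℤ) ^ d = w := by
        rw [h4, Int.add_mul_emod_self_left, Int.emod_eq_of_lt hw0 hw1]
      rw [h5, hw]
    choose! d hd1 hd2 hd3 using hbad
    have kpos : ∀ n : ℕ, (0 : ℤ) < (c.k : ℤ) ^ n := fun n => by have := c.hk; positivity
    have h1 : ∑ g ∈ F with ¬ good g, x ^ (2 * C) * x ^ c.len g ≤
        ∑ p ∈ (range (m + 1)).sigma (fun d => range (c.k ^ d)),
          x ^ (c.L (p.2 : ℕ) p.1) * s ^ m := by
      refine sum_le_of_inj _ _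
        (fun g => (⟨d g, (u g % (c.k : ℤ) ^ d g).toNat⟩ : Σ _ : ℕ, ℕ)) _ _ ?_ ?_ ?_
        (fun _ _ => by positivity)
      · intro g hg
        rw [Finset.mem_sigma]
        refine ⟨Finset.mem_range.2 (by have := hd2 g hg; simp only; omega), ?_⟩
        exact c.mem_range_toNat (Int.emod_nonneg _ (kpos _).ne') (Int.emod_lt_of_pos _ (kpos _))
      · intro g hg g' hg' h
        have hg : g ∈ F.filter (fun g => ¬ good g) := hg
        have hg' : g' ∈ F.filter (fun g => ¬ good g) := hg'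
        simp only [Sigma.mk.injEq, heq_eq_eq] at h
        have e1 := hd3 g hg
        have e2 := hd3 g' hg'
        have e3 : u g % (c.k : ℤ) ^ d g = u g' % (c.k : ℤ) ^ d g' := by
          have := Int.emod_nonneg (u g) (kpos (d g)).ne'
          have := Int.emod_nonneg (u g') (kpos (d g')).ne'
          have := h.2
          omega
        rw [e3, ← e2, h.1] at e1
        have e4 := mul_left_cancel₀ (c.Q_pos (hd1 g' hg')).ne' e1
        have hgF := (Finset.mem_filter.1 hg).1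
        have hgF' := (Finset.mem_filter.1 hg').1
        exact hF g hgF g' hgF' ((hu g hgF).trans (by rw [e4]; exact (hu g' hgF').symm))
      · intro g hg
        have hgF := (Finset.mem_filter.1 hg).1
        simp only
        rw [Int.toNat_of_nonneg (Int.emod_nonneg _ (kpos _).ne')]
        obtain ⟨n, hn⟩ := Nat.exists_eq_add_of_le (show d g ≤ m by have := hd2 g hg; omega)
        have t1 := hC.conj (u g) m (hu0 g hgF) (by have := hu1 g hgF; omega) g (hu g hgF)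
        have t2 := hC.add (u g % (c.k : ℤ) ^ d g) (u g / (c.k : ℤ) ^ d g) (d g) n
          (Int.emod_nonneg _ (kpos _).ne') (Int.emod_lt_of_pos _ (kpos _))
        rw [Int.emod_add_mul_ediv, ← hn] at t2
        have t3 := c.le_L (u g / (c.k : ℤ) ^ d g) n
        have t4 := hd2 g hg
        calc x ^ (2 * C) * x ^ c.len g = x ^ (2 * C + c.len g) := (pow_add _ _ _).symm
          _ ≤ x ^ (c.L (u g % (c.k : ℤ) ^ d g) (d g) + c.L (u g / (c.k : ℤ) ^ d g) n) :=
              pow_le_pow_of_le_one hx hx1 (by omega)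
          _ = x ^ (c.L (u g % (c.k : ℤ) ^ d g) (d g)) * x ^ (c.L (u g / (c.k : ℤ) ^ d g) n) :=
              pow_add _ _ _
          _ ≤ _ := by
              refine mul_le_mul_of_nonneg_left ?_ (pow_nonneg hx _)
              refine (pow_le_pow_left₀ hx hxs _).trans ?_
              rw [← pow_mul]
              refine pow_le_pow_of_le_one hs hs1 ?_
              rw [mul_assoc]
              omega
    rw [Finset.mul_sum]
    refine h1.trans ?_
    rw [Finset.sum_sigma]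
    have h2 : ∀ d ∈ range (m + 1), ∑ w ∈ range (c.k ^ d), x ^ (c.L (w : ℕ) d) * s ^ m ≤ s ^ m := by
      intro d _
      rw [← Finset.sum_mul]
      exact mul_le_of_le_one_left (pow_nonneg hs _) (hA d)
    refine (Finset.sum_le_sum h2).trans (le_of_eq ?_)
    simp

end Ctx

end Pool.Agent.P.MP_27e7ce_al
end

-- part Pool.Agent.P.MP_27e7ce_al.Ab
section

namespace Pool.Agent.P.MP_27e7ce_al

open Finset

namespace Ctx

variable {G : Type} [Group G] (c : Ctx G)

lemma size_bound : ∃ B : ℕ, ∀ (p : ℕ → G) (N : ℕ), c.IsPath p N → p 0 = 1 →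
    c.len (p N) = N → c.h (p N) = 0 → ∀ i ≤ N, (∀ n ≤ N, c.h (p n) ≤ c.h (p i)) →
    |c.v (p N)| ≤ B * (c.k : ℚ) ^ (c.h (p i)) := by
  obtain ⟨B, hB⟩ := c.low_bound
  refine ⟨2 * B, fun p N hp h0 hN hh i hi hmax => ?_⟩
  have hR : 0 ≤ c.h (p i) := by simpa [h0] using hmax 0 (Nat.zero_le _)
  have l1 := hp.len_le (Nat.zero_le i) hi
  have l2 := hp.len_le hi le_rfl
  have l3 := c.len_mul (p i) ((p i)⁻¹ * p N)
  rw [mul_inv_cancel_left] at l3
  rw [h0, inv_one, one_mul] at l1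
  have b1 := hB p i (fun n hn => hp n (by omega)) h0 (by omega) (c.h (p i)) hR le_rfl (range i)
    (fun n hn => ⟨Finset.mem_range.1 hn, hmax n (by have := Finset.mem_range.1 hn; omega)⟩)
  rw [sum_con, h0, v_one, sub_zero] at b1
  set p' : ℕ → G := fun n => (p N)⁻¹ * p (N - n) with hp'
  have hp'0 : p' 0 = 1 := by simp [hp']
  have hp'N : p' (N - i) = (p N)⁻¹ * p i := by
    simp only [hp']; rw [Nat.sub_sub_self hi]
  have hp'h : ∀ n, c.h (p' n) = c.h (p (N - n)) := by intro n; simp [hp', hh]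
  have hpath : c.IsPath p' (N - i) := by
    intro n hn
    have := c.inv_T _ (hp (N - (n + 1)) (by omega))
    have e : N - (n + 1) + 1 = N - n := by omega
    rw [e] at this
    simpa [hp', mul_assoc] using this
  have b2 := hB p' (N - i) hpath hp'0 (by
      rw [hp'N, ← c.len_inv, mul_inv_rev, inv_inv]; omega) (c.h (p i)) hR
    (by rw [hp'h, Nat.sub_sub_self hi]) (range (N - i))
    (fun n hn => ⟨Finset.mem_range.1 hn, by rw [hp'h]; exact hmax _ (by omega)⟩)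
  rw [sum_con, hp'0, v_one, sub_zero, hp'N, v_mul', v_inv, h_inv, hh] at b2
  simp only [neg_zero, zpow_zero, one_mul] at b2
  have := abs_sub (c.v (p i)) (-c.v (p N) + c.v (p i))
  have e : c.v (p i) - (-c.v (p N) + c.v (p i)) = c.v (p N) := by ring
  rw [e] at this
  push_cast
  linarith

variable {c}

lemma CutConst.ab_data {C : ℕ} (hC : c.CutConst C) : ∃ K C' : ℕ, ∀ g : G, c.h g = 0 →
    ∃ (m : ℕ) (X y₁ y₂ : ℤ), 1 ≤ m ∧ |X| ≤ K * (c.k : ℤ) ^ m ∧ IsConj g (c.el X 0) ∧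
      0 ≤ y₁ ∧ y₁ < (c.k : ℤ) ^ m ∧ y₁ - y₂ ≡ X [ZMOD (c.k : ℤ) ^ m] ∧
      c.L y₁ m + c.L y₂ m ≤ c.len g + C' := by
  obtain ⟨B, hB⟩ := c.size_bound
  refine ⟨B, 2 * ((c.E + 1) * c.len c.t) + 2 * C, fun g hg => ?_⟩
  obtain ⟨p, h0, hN, hp⟩ := c.path g
  have hp : c.IsPath p (c.len g) := hp
  set N := c.len g with hNdef
  obtain ⟨ib, hib, hmin⟩ := Finset.exists_min_image (range (N + 1)) (fun i => c.h (p i))
    ⟨0, by simp⟩
  obtain ⟨it, hit, hmax⟩ := Finset.exists_max_image (range (N + 1)) (fun i => c.h (p i))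
    ⟨0, by simp⟩
  simp only [Finset.mem_range] at hib hit hmin hmax
  have hsz := hB p N hp h0 (by rw [hN]) (by rw [hN, hg]) it (by omega)
    (fun n hn => hmax n (by omega))
  rw [hN] at hsz
  obtain ⟨z, hz⟩ := hp.sum_int (c.h (p ib)) (range N) (fun i hi =>
    ⟨Finset.mem_range.1 hi, hmin i (by have := Finset.mem_range.1 hi; omega)⟩)
  rw [sum_con, h0, v_one, sub_zero, hN] at hz
  obtain ⟨m, hm⟩ : ∃ m : ℕ, (m : ℤ) = c.h (p it) - c.h (p ib) + c.E + 1 :=
    ⟨(c.h (p it) - c.h (p ib) + c.E + 1).toNat, by have := hmin it hit; omega⟩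
  have kpos : ∀ n : ℕ, (0 : ℤ) < (c.k : ℤ) ^ n := fun n => by have := c.hk; positivity
  set y : G := c.t ^ ((c.E + 1 : ℕ) : ℤ) * (p ib)⁻¹ with hy
  have hX : (c.k : ℚ) ^ (c.h y) * c.v g = ((c.k * z : ℤ) : ℚ) := by
    have : c.h y + (c.h (p ib) - c.E) = 1 := by simp [hy]; ring
    rw [hz, ← mul_assoc, ← zpow_add₀ c.k_ne, this]
    simp
  have hconj : y * g * y⁻¹ = c.el (c.k * z) 0 := by
    apply c.ext'
    · rw [v_conj, hX, hg]; simp
    · simp [hg]
  have hXb : |c.k * z| ≤ B * (c.k : ℤ) ^ m := by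
    have h1 : |((c.k * z : ℤ) : ℚ)| ≤ B * (c.k : ℚ) ^ m := by
      rw [← hX, abs_mul, abs_of_pos (zpow_pos c.k_pos _)]
      have e : (m : ℤ) = c.h y + c.h (p it) := by rw [hm]; simp [hy]; ring
      rw [← zpow_natCast, e, zpow_add₀ c.k_ne]
      have := zpow_pos c.k_pos (c.h y)
      calc _ ≤ (c.k : ℚ) ^ (c.h y) * (B * (c.k : ℚ) ^ (c.h (p it))) := by gcongr
        _ = _ := by ring
    exact_mod_cast h1
  obtain ⟨γ₁, γ₂, g1, g2, g3, g4⟩ : ∃ γ₁ γ₂ : G, c.h γ₁ = m ∧ c.h γ₂ = m ∧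
      γ₁ = (y * g * y⁻¹) * γ₂ ∧ c.len γ₁ + c.len γ₂ ≤ N + 2 * ((c.E + 1) * c.len c.t) := by
    have t0 := c.len_zpow_le c.t ((c.E + 1 : ℕ) : ℤ)
    rw [Int.natAbs_natCast] at t0
    have t1 := hp.len_le (Nat.zero_le ib) (by omega)
    have t2 := hp.len_le (Nat.zero_le it) (by omega)
    rw [h0, inv_one, one_mul] at t1 t2
    have t3 := hp.len_le (show ib ≤ N by omega) le_rfl
    have t4 := hp.len_le (show it ≤ N by omega) le_rfl
    rw [hN] at t3 t4
    rcases le_total ib it with hle | hle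
    · refine ⟨y * p it, y * g⁻¹ * p it, ?_, ?_, by group, ?_⟩
      · rw [hm]; simp [hy]; ring
      · rw [hm]; simp [hy, hg]; ring
      · have t5 := hp.len_le hle (by omega)
        have t6 := c.len_mul (c.t ^ ((c.E + 1 : ℕ) : ℤ)) ((p ib)⁻¹ * p it)
        have t7 := c.len_mul3 (c.t ^ ((c.E + 1 : ℕ) : ℤ)) (p ib)⁻¹ (g⁻¹ * p it)
        rw [← c.len_inv, mul_inv_rev, inv_inv] at t4
        rw [c.len_inv] at t7
        simp only [hy, mul_assoc] at t6 t7 ⊢
        omega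
    · refine ⟨y * g * p it, y * p it, ?_, ?_, by group, ?_⟩
      · rw [hm]; simp [hy, hg]; ring
      · rw [hm]; simp [hy]; ring
      · have t5 := hp.len_le hle (by omega)
        have t6 := c.len_mul (c.t ^ ((c.E + 1 : ℕ) : ℤ)) ((p ib)⁻¹ * p it)
        have t7 := c.len_mul3 (c.t ^ ((c.E + 1 : ℕ) : ℤ)) ((p ib)⁻¹ * g) (p it)
        rw [← c.len_inv, mul_inv_rev, inv_inv] at t5
        simp only [hy, mul_assoc] at t6 t7 t3 ⊢
        omega
  have hv : c.v γ₁ = c.v γ₂ + ((c.k * z : ℤ) : ℚ) := by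
    rw [g3, hconj, v_mul']; simp [add_comm]
  refine ⟨m, c.k * z, ⌊c.v γ₁⌋ % (c.k : ℤ) ^ m, ⌊c.v γ₂⌋ % (c.k : ℤ) ^ m,
    by have := hmin it hit; omega, hXb, isConj_iff.2 ⟨y, hconj⟩,
    Int.emod_nonneg _ (kpos _).ne', Int.emod_lt_of_pos _ (kpos _), ?_, ?_⟩
  · have := (Int.mod_modEq ⌊c.v γ₁⌋ ((c.k : ℤ) ^ m)).sub (Int.mod_modEq ⌊c.v γ₂⌋ ((c.k : ℤ) ^ m))
    rwa [hv, Int.floor_add_intCast, add_sub_cancel_left, ← Int.floor_add_intCast, ← hv] at this
  · have := hC.red γ₁ m g1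
    have := hC.red γ₂ m g2
    omega

lemma CutConst.ab_part {C : ℕ} (hC : c.CutConst C) : ∃ K C' : ℕ, ∀ F : Finset G, NC F →
    (∀ g ∈ F, c.h g = 0) → ∀ x : ℝ, 0 ≤ x → x ≤ 1 → ∃ R : ℕ,
    x ^ C' * ∑ g ∈ F, x ^ c.len g ≤ ∑ n ∈ range R, K * c.A (n + 1) x ^ 2 / (n + 1) := by
  classical
  obtain ⟨K, C', H⟩ := hC.ab_data
  refine ⟨2 * K + 1, C' + 2 * C, fun F hF hh x hx hx1 => ?_⟩
  choose! m X y₁ y₂ a1 a2 a3 a4 a5 a6 a7 using fun g (hg : g ∈ F) => H g (hh g hg)
  refine ⟨F.sup m, ?_⟩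
  rw [← Finset.sum_fiberwise_of_maps_to (s := F) (t := range (F.sup m)) (g := fun g => m g - 1)
    (fun g hg => by
      have := Finset.le_sup (f := m) hg
      have := a1 g hg
      rw [Finset.mem_range]; omega), Finset.mul_sum]
  refine Finset.sum_le_sum fun n _ => ?_
  have kpos : ∀ n : ℕ, (0 : ℤ) < (c.k : ℤ) ^ n := fun n => by have := c.hk; positivity
  set M := n + 1 with hM
  have hmM : ∀ g ∈ F.filter (fun g => m g - 1 = n), g ∈ F ∧ m g = M := by
    intro g hg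
    rw [Finset.mem_filter] at hg
    have := a1 g hg.1
    exact ⟨hg.1, by omega⟩
  have h1 : ∑ p ∈ (F.filter (fun g => m g - 1 = n)) ×ˢ range M, x ^ (C' + 2 * C) * x ^ c.len p.1 ≤
      ∑ q ∈ Finset.Icc (-(K : ℤ)) K ×ˢ (range (c.k ^ M) ×ˢ range (c.k ^ M)),
        x ^ (c.L (q.2.1 : ℕ) M) * x ^ (c.L (q.2.2 : ℕ) M) := by
    refine sum_le_of_inj _ _ (fun p => (X p.1 / (c.k : ℤ) ^ M,
      ((y₁ p.1 + (c.k : ℤ) ^ p.2) % (c.k : ℤ) ^ M).toNat,
      ((y₂ p.1 + (c.k : ℤ) ^ p.2) % (c.k : ℤ) ^ M).toNat)) _ _ ?_ ?_ ?_ (fun _ _ => by positivity)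
    · rintro ⟨g, i⟩ hp
      rw [Finset.mem_product] at hp
      obtain ⟨hg, hgM⟩ := hmM g hp.1
      simp only [Finset.mem_product, Finset.mem_Icc]
      refine ⟨?_, c.mem_range_toNat (Int.emod_nonneg _ (kpos _).ne') (Int.emod_lt_of_pos _ (kpos _)),
        c.mem_range_toNat (Int.emod_nonneg _ (kpos _).ne') (Int.emod_lt_of_pos _ (kpos _))⟩
      have hb := abs_le.1 (a2 g hg)
      rw [hgM] at hb
      exact ⟨(Int.le_ediv_iff_mul_le (kpos M)).2 (by linarith [hb.1]),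
        Int.ediv_le_of_le_mul (kpos M) hb.2⟩
    · rintro ⟨g, i⟩ hp ⟨g', i'⟩ hp' h
      have hp := Finset.mem_product.1 (Finset.mem_coe.1 hp)
      have hp' := Finset.mem_product.1 (Finset.mem_coe.1 hp')
      obtain ⟨hg, hgM⟩ := hmM g hp.1
      obtain ⟨hg', hgM'⟩ := hmM g' hp'.1
      simp only [Prod.mk.injEq] at h
      obtain ⟨e1, e2, e3⟩ := h
      have e2' : y₁ g + (c.k : ℤ) ^ i ≡ y₁ g' + (c.k : ℤ) ^ i' [ZMOD (c.k : ℤ) ^ M] := by
        have := Int.emod_nonneg (y₁ g + (c.k : ℤ) ^ i) (kpos M).ne'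
        have := Int.emod_nonneg (y₁ g' + (c.k : ℤ) ^ i') (kpos M).ne'
        unfold Int.ModEq
        omega
      have e3' : y₂ g + (c.k : ℤ) ^ i ≡ y₂ g' + (c.k : ℤ) ^ i' [ZMOD (c.k : ℤ) ^ M] := by
        have := Int.emod_nonneg (y₂ g + (c.k : ℤ) ^ i) (kpos M).ne'
        have := Int.emod_nonneg (y₂ g' + (c.k : ℤ) ^ i') (kpos M).ne'
        unfold Int.ModEq
        omega
      have e4 := e2'.sub e3'
      rw [add_sub_add_right_eq_sub, add_sub_add_right_eq_sub] at e4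
      have b1 := a6 g hg
      have b2 := a6 g' hg'
      rw [hgM] at b1
      rw [hgM'] at b2
      have e5 : X g % (c.k : ℤ) ^ M = X g' % (c.k : ℤ) ^ M := (b1.symm.trans e4).trans b2
      have e6 : X g = X g' := by
        rw [← Int.emod_add_mul_ediv (X g) ((c.k : ℤ) ^ M), e5, e1, Int.emod_add_mul_ediv]
      have e7 : g = g' := hF g hg g' hg' ((a3 g hg).trans (by rw [e6]; exact (a3 g' hg').symm))
      subst e7
      have e8 : (c.k : ℤ) ^ i % (c.k : ℤ) ^ M = (c.k : ℤ) ^ i' % (c.k : ℤ) ^ M :=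
        Int.ModEq.add_left_cancel' _ e2'
      have hk1 : (1 : ℤ) < c.k := by have := c.hk; omega
      rw [Int.emod_eq_of_lt (kpos _).le (pow_lt_pow_right₀ hk1 (Finset.mem_range.1 hp.2)),
        Int.emod_eq_of_lt (kpos _).le (pow_lt_pow_right₀ hk1 (Finset.mem_range.1 hp'.2))] at e8
      have e9 : i = i' := pow_right_injective₀ (by omega) hk1.ne' e8
      rw [e9]
    · rintro ⟨g, i⟩ hp
      rw [Finset.mem_product] at hp
      obtain ⟨hg, hgM⟩ := hmM g hp.1
      simp only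
      rw [Int.toNat_of_nonneg (Int.emod_nonneg _ (kpos _).ne'),
        Int.toNat_of_nonneg (Int.emod_nonneg _ (kpos _).ne'), ← pow_add, ← pow_add]
      refine pow_le_pow_of_le_one hx hx1 ?_
      have hi := (Finset.mem_range.1 hp.2).le
      have t1 := hC.shift (y₁ g) i M hi
      have t2 := hC.shift (y₂ g) i M hi
      have t3 := a7 g hg
      rw [hgM] at t3
      omega
  rw [Finset.sum_product, Finset.sum_product] at h1
  simp only [Finset.sum_const, Finset.card_range, nsmul_eq_mul, Int.card_Icc] at h1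
  rw [← Finset.mul_sum, ← Finset.mul_sum, Finset.sum_product] at h1
  simp only at h1
  rw [← Finset.sum_mul_sum] at h1
  have e : ((K : ℤ) + 1 - -(K : ℤ)).toNat = 2 * K + 1 := by omega
  rw [e] at h1
  have hM0 : (0 : ℝ) < (n : ℝ) + 1 := by positivity
  rw [le_div_iff₀ hM0, sq]
  have eM : (M : ℝ) = n + 1 := by rw [hM]; push_cast; ring
  rw [eM] at h1
  unfold A
  linarith

end Ctx

end Pool.Agent.P.MP_27e7ce_al
end

-- part Pool.Agent.P.MP_27e7ce_al.Bounds
section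

namespace Pool.Agent.P.MP_27e7ce_al

open Finset

lemma log_partial {ρ : ℝ} (h0 : 0 ≤ ρ) (h1 : ρ < 1) (R : ℕ) :
    ∑ n ∈ range R, ρ ^ (n + 1) / (n + 1) ≤ -Real.log (1 - ρ) :=
  sum_le_hasSum _ (fun _ _ => by positivity)
    (Real.hasSum_pow_div_log_of_abs_lt_one (by rw [abs_of_nonneg h0]; exact h1))

lemma geom_partial {s : ℝ} (h0 : 0 ≤ s) (h1 : s < 1) :
    ∃ K : ℝ, 0 ≤ K ∧ ∀ R : ℕ, ∑ n ∈ range R, (((n + 1 : ℕ) : ℝ) + 1) * s ^ (n + 1) ≤ K := by
  have hs : ‖s‖ < 1 := by rw [Real.norm_eq_abs, abs_of_nonneg h0]; exact h1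
  have h2 : Summable fun n : ℕ => ((n : ℝ) + 1) * s ^ n := by
    have := (summable_pow_mul_geometric_of_norm_lt_one 1 hs).add (summable_geometric_of_norm_lt_one hs)
    refine this.congr fun n => ?_
    ring
  have h3 := (summable_nat_add_iff 1).2 h2
  refine ⟨∑' n : ℕ, (((n + 1 : ℕ) : ℝ) + 1) * s ^ (n + 1), tsum_nonneg fun n => by positivity,
    fun R => h3.sum_le_tsum _ fun n _ => by positivity⟩

namespace Ctx

variable {G : Type} [Group G] {c : Ctx G}

lemma CutConst.upper {C : ℕ} (hC : c.CutConst C) {r : ℝ} (hr0 : 0 < r) (hr1 : r < 1)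
    (hA : ∀ m, c.A m r ≤ 1) : ∃ K : ℝ, 0 ≤ K ∧ ∀ ρ : ℝ, 1 / 2 ≤ ρ → ρ < 1 → ∀ F : Finset G, NC F →
    ∑ g ∈ F, (r * ρ ^ c.D) ^ c.len g ≤ K * (1 - Real.log (1 - ρ)) := by
  classical
  obtain ⟨K₁, C', hab⟩ := hC.ab_part
  have hD := c.D_pos
  set s : ℝ := r ^ (((2 * c.D : ℕ) : ℝ)⁻¹) with hs
  have hs0 : 0 ≤ s := Real.rpow_nonneg hr0.le _
  have hs1 : s < 1 := Real.rpow_lt_one hr0.le hr1 (by positivity)
  have hsr : s ^ (2 * c.D) = r := Real.rpow_inv_natCast_pow hr0.le (by omega)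
  obtain ⟨K₂, hK₂, hK₂'⟩ := geom_partial hs0 hs1
  set x₀ : ℝ := r * (1 / 2) ^ c.D with hx₀
  have hx₀0 : 0 < x₀ := by positivity
  refine ⟨K₁ / x₀ ^ C' + 2 * ((2 + K₂) / x₀ ^ (2 * C)), by positivity, fun ρ hρ0 hρ1 F hF => ?_⟩
  have hρ : 0 ≤ ρ := by linarith
  set x := r * ρ ^ c.D with hx
  have hx1 : x₀ ≤ x := by rw [hx₀, hx]; gcongr
  have hx0 : 0 ≤ x := hx₀0.le.trans hx1
  have hxr : x ≤ r := mul_le_of_le_one_right hr0.le (pow_le_one₀ hρ hρ1.le)
  have hx2 : x ≤ 1 := hxr.trans hr1.le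
  have hAx : ∀ m, c.A m x ≤ ρ ^ m := fun m =>
    (c.A_scale m hr0.le hρ hρ1.le).trans (mul_le_of_le_one_right (pow_nonneg hρ _) (hA m))
  have hAx1 : ∀ m, c.A m x ≤ 1 := fun m => (hAx m).trans (pow_le_one₀ hρ hρ1.le)
  set ℓ := -Real.log (1 - ρ) with hℓ
  have hℓ0 : 0 ≤ ℓ := by simpa [hℓ] using log_partial hρ hρ1 0
  have pos : ∀ F : Finset G, NC F → (∀ g ∈ F, 0 < c.h g) →
      ∑ g ∈ F, x ^ c.len g ≤ (2 + K₂) / x₀ ^ (2 * C) * (1 + ℓ) := by
    intro F hF hh
    set R := F.sup fun g => (c.h g).toNat with hR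
    have h1 : x ^ (2 * C) * ∑ g ∈ F, x ^ c.len g ≤ 2 * ℓ + K₂ := by
      rw [← Finset.sum_fiberwise_of_maps_to (s := F) (t := range R)
        (g := fun g => (c.h g).toNat - 1) (fun g hg => by
          have : (c.h g).toNat ≤ R := Finset.le_sup (f := fun g => (c.h g).toNat) hg
          have := hh g hg
          rw [Finset.mem_range]; omega), Finset.mul_sum]
      have h2 : ∀ n ∈ range R, x ^ (2 * C) * ∑ g ∈ F with (c.h g).toNat - 1 = n, x ^ c.len g ≤
          2 * (ρ ^ (n + 1) / (n + 1)) + (((n + 1 : ℕ) : ℝ) + 1) * s ^ (n + 1) := by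
        intro n _
        refine (hC.pos_part (m := n + 1) (by omega) _
          (fun g hg g' hg' => hF g (Finset.mem_filter.1 hg).1 g' (Finset.mem_filter.1 hg').1)
          (fun g hg => by
            rw [Finset.mem_filter] at hg
            have := hh g hg.1
            have := hg.2
            push_cast; omega) hx0 hx2 hs0 hs1.le (by rw [hsr]; exact hxr) hAx1).trans ?_
        have := hAx (n + 1)
        have h3 : 2 / ((n + 1 : ℕ) : ℝ) * c.A (n + 1) x ≤ 2 / ((n + 1 : ℕ) : ℝ) * ρ ^ (n + 1) := by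
          gcongr
        have h4 : 2 / ((n + 1 : ℕ) : ℝ) * ρ ^ (n + 1) = 2 * (ρ ^ (n + 1) / (n + 1)) := by
          push_cast; ring
        linarith
      refine (Finset.sum_le_sum h2).trans ?_
      rw [Finset.sum_add_distrib, ← Finset.mul_sum]
      have := log_partial hρ hρ1 R
      have := hK₂' R
      linarith
    have hS : 0 ≤ ∑ g ∈ F, x ^ c.len g := Finset.sum_nonneg fun _ _ => pow_nonneg hx0 _
    rw [div_mul_eq_mul_div, le_div_iff₀ (by positivity)]
    have h5 : x₀ ^ (2 * C) ≤ x ^ (2 * C) := by gcongr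
    nlinarith [mul_nonneg hK₂ hℓ0, mul_le_mul_of_nonneg_left h5 hS]
  have neg : ∀ F : Finset G, NC F → (∀ g ∈ F, c.h g < 0) →
      ∑ g ∈ F, x ^ c.len g ≤ (2 + K₂) / x₀ ^ (2 * C) * (1 + ℓ) := by
    intro F hF hh
    refine le_trans (le_of_eq ?_) (pos (F.image (·⁻¹)) ?_ ?_)
    · rw [Finset.sum_image (fun _ _ _ _ h => inv_injective h)]
      simp [c.len_inv]
    · intro g₀ hg₀ g₁ hg₁ h
      obtain ⟨g, hg, rfl⟩ := Finset.mem_image.1 hg₀
      obtain ⟨g', hg', rfl⟩ := Finset.mem_image.1 hg₁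
      obtain ⟨y, hy⟩ := isConj_iff.1 h
      rw [hF g hg g' hg' (isConj_iff.2 ⟨y, by
        rw [← inv_inj, ← hy]; group⟩)]
    · intro g₀ hg₀
      obtain ⟨g, hg, rfl⟩ := Finset.mem_image.1 hg₀
      have := hh g hg
      simp only [h_inv]; omega
  have zer : ∀ F : Finset G, NC F → (∀ g ∈ F, c.h g = 0) →
      ∑ g ∈ F, x ^ c.len g ≤ K₁ / x₀ ^ C' * (1 + ℓ) := by
    intro F hF hh
    obtain ⟨R, hR⟩ := hab F hF hh x hx0 hx2
    have h2 : ∑ n ∈ range R, (K₁ : ℝ) * c.A (n + 1) x ^ 2 / (n + 1) ≤ K₁ * ℓ := by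
      refine le_trans ?_ (mul_le_mul_of_nonneg_left (log_partial hρ hρ1 R) (by positivity))
      rw [Finset.mul_sum]
      refine Finset.sum_le_sum fun n _ => ?_
      rw [mul_div_assoc]
      have h3 : c.A (n + 1) x ^ 2 ≤ ρ ^ (n + 1) := by
        have := c.A_nonneg (n + 1) hx0
        have := hAx (n + 1)
        have := hAx1 (n + 1)
        nlinarith
      gcongr
    have hS : 0 ≤ ∑ g ∈ F, x ^ c.len g := Finset.sum_nonneg fun _ _ => pow_nonneg hx0 _
    rw [div_mul_eq_mul_div, le_div_iff₀ (by positivity)]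
    have h5 : x₀ ^ C' ≤ x ^ C' := by gcongr
    have : (0 : ℝ) ≤ K₁ := by positivity
    nlinarith [mul_le_mul_of_nonneg_left h5 hS]
  have sub : ∀ P : G → Prop, ∀ _ : DecidablePred P, NC (F.filter P) := fun P _ g hg g' hg' =>
    hF g (Finset.mem_filter.1 hg).1 g' (Finset.mem_filter.1 hg').1
  have e : ∑ g ∈ F, x ^ c.len g = ∑ g ∈ F with c.h g = 0, x ^ c.len g +
      (∑ g ∈ F with 0 < c.h g, x ^ c.len g + ∑ g ∈ F with c.h g < 0, x ^ c.len g) := by
    simp only [Finset.sum_filter, ← Finset.sum_add_distrib]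
    refine Finset.sum_congr rfl fun g _ => ?_
    split_ifs <;> first | omega | simp
  have t1 := zer _ (sub (fun g => c.h g = 0) _) (fun g hg => (Finset.mem_filter.1 hg).2)
  have t2 := pos _ (sub (fun g => 0 < c.h g) _) (fun g hg => (Finset.mem_filter.1 hg).2)
  have t3 := neg _ (sub (fun g => c.h g < 0) _) (fun g hg => (Finset.mem_filter.1 hg).2)
  have e2 : 1 - Real.log (1 - ρ) = 1 + ℓ := by rw [hℓ]; ring
  rw [e, e2]
  linarith

variable (c)

lemma conj_mod {u u' : ℤ} {m : ℕ} (hm : 1 ≤ m) (h : IsConj (c.el u m) (c.el u' m)) :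
    ∃ i < m, u' ≡ (c.k : ℤ) ^ i * u [ZMOD (c.k : ℤ) ^ m - 1] := by
  obtain ⟨y, hy⟩ := isConj_iff.1 h
  have h1 := c.v_conj y (c.el u m)
  rw [hy] at h1
  simp only [v_el, h_el, zpow_natCast] at h1
  obtain ⟨e, z, hz⟩ := c.frac y
  set n := e + (c.h y).natAbs with hn
  have hnm : n ≤ m * n := Nat.le_mul_of_pos_left _ hm
  obtain ⟨J, hJ⟩ : ∃ J : ℕ, (J : ℤ) = (m * n : ℕ) + c.h y :=
    ⟨((m * n : ℕ) + c.h y).toNat, by omega⟩
  obtain ⟨d, hd⟩ := Nat.exists_eq_add_of_le (show e ≤ m * n by omega)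
  have h2 : (c.k : ℤ) ^ (m * n) * u' =
      (c.k : ℤ) ^ J * u + (1 - (c.k : ℤ) ^ m) * ((c.k : ℤ) ^ d * z) := by
    have : (c.k : ℚ) ^ (m * n) * u' =
        (c.k : ℚ) ^ J * u + (1 - (c.k : ℚ) ^ m) * ((c.k : ℚ) ^ d * z) := by
      rw [h1, ← hz, ← zpow_natCast _ J, hJ, zpow_add₀ c.k_ne, zpow_natCast, hd]
      ring
    exact_mod_cast this
  have k1 : (c.k : ℤ) ^ m ≡ 1 [ZMOD (c.k : ℤ) ^ m - 1] :=
    (Int.modEq_iff_dvd.2 (dvd_refl _)).symm
  have k2 : ∀ a : ℕ, (c.k : ℤ) ^ (m * a) ≡ 1 [ZMOD (c.k : ℤ) ^ m - 1] := fun a => by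
    simpa [pow_mul] using k1.pow a
  refine ⟨J % m, Nat.mod_lt _ hm, ?_⟩
  have h3 : u' ≡ (c.k : ℤ) ^ (m * n) * u' [ZMOD (c.k : ℤ) ^ m - 1] := by
    simpa using ((k2 n).mul_right u').symm
  have h4 : (c.k : ℤ) ^ (m * n) * u' ≡ (c.k : ℤ) ^ J * u [ZMOD (c.k : ℤ) ^ m - 1] := by
    rw [h2]
    refine Int.modEq_iff_dvd.2 ⟨(c.k : ℤ) ^ d * z, by ring⟩
  have h5 : (c.k : ℤ) ^ J * u ≡ (c.k : ℤ) ^ (J % m) * u [ZMOD (c.k : ℤ) ^ m - 1] := by
    conv_lhs => rw [← Nat.div_add_mod J m, pow_add, mul_assoc]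
    simpa using (k2 (J / m)).mul_right ((c.k : ℤ) ^ (J % m) * u)
  exact (h3.trans h4).trans h5

/-- length of a conjugacy class -/
noncomputable def cl (κ : ConjClasses G) : ℕ :=
  sInf {n : ℕ | ∃ g : G, ConjClasses.mk g = κ ∧ c.len g = n}

lemma cl_le (g : G) : c.cl (ConjClasses.mk g) ≤ c.len g := Nat.sInf_le ⟨g, rfl, rfl⟩

lemma exists_cl (κ : ConjClasses G) : ∃ g : G, ConjClasses.mk g = κ ∧ c.len g = c.cl κ := by
  obtain ⟨g, rfl⟩ := ConjClasses.exists_rep κ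
  exact Nat.sInf_mem (s := {n : ℕ | ∃ g' : G, ConjClasses.mk g' = ConjClasses.mk g ∧ c.len g' = n})
    ⟨_, g, rfl, rfl⟩

lemma lower {x : ℝ} (hx : 0 ≤ x) (hx1 : x ≤ 1) (M : ℕ) : ∃ Cs : Finset (ConjClasses G),
    ∑ n ∈ range M, c.A (n + 1) x / (n + 2) ≤ ∑ κ ∈ Cs, x ^ c.cl κ := by
  classical
  set φ : ℕ → ℕ → ConjClasses G := fun m u => ConjClasses.mk (c.el (u : ℕ) m) with hφ
  refine ⟨(range M).biUnion fun n => (range (c.k ^ (n + 1))).image (φ (n + 1)), ?_⟩
  rw [Finset.sum_biUnion]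
  · refine Finset.sum_le_sum fun n _ => ?_
    set m := n + 1 with hm
    rw [div_le_iff₀ (by positivity)]
    have h1 : c.A m x ≤ ∑ u ∈ range (c.k ^ m), x ^ c.cl (φ m u) :=
      Finset.sum_le_sum fun u _ => pow_le_pow_of_le_one hx hx1 (c.cl_le _)
    refine h1.trans ?_
    rw [Finset.sum_comp (fun κ => x ^ c.cl κ) (φ m), Finset.sum_mul]
    refine Finset.sum_le_sum fun κ hκ => ?_
    obtain ⟨u₀, _, rfl⟩ := Finset.mem_image.1 hκ
    rw [nsmul_eq_mul, mul_comm]
    refine mul_le_mul_of_nonneg_left ?_ (pow_nonneg hx _)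
    have hQ := c.Q_pos (show 1 ≤ m by omega)
    have h2 : #{u ∈ range (c.k ^ m) | φ m u = φ m u₀} ≤
        #(insert (c.k ^ m - 1) ((range m).image
          fun i => (((c.k : ℤ) ^ i * u₀) % ((c.k : ℤ) ^ m - 1)).toNat)) := by
      refine Finset.card_le_card fun u hu => ?_
      rw [Finset.mem_filter, Finset.mem_range] at hu
      obtain ⟨i, hi, h⟩ := c.conj_mod (show 1 ≤ m by omega)
        (ConjClasses.mk_eq_mk_iff_isConj.1 hu.2.symm)
      rw [Finset.mem_insert]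
      by_cases hu1 : u = c.k ^ m - 1
      · exact Or.inl hu1
      · right
        refine Finset.mem_image.2 ⟨i, Finset.mem_range.2 hi, ?_⟩
        rw [← h, Int.emod_eq_of_lt (by positivity)]
        · simp
        · have : u + 1 < c.k ^ m := by have := hu.1; omega
          have : ((u + 1 : ℕ) : ℤ) < ((c.k ^ m : ℕ) : ℤ) := by exact_mod_cast this
          push_cast at this
          omega
    have h3 := h2.trans ((Finset.card_insert_le _ _).trans
      (Nat.succ_le_succ Finset.card_image_le))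
    rw [Finset.card_range] at h3
    exact_mod_cast h3
  · intro n _ n' _ hne
    rw [Function.onFun, Finset.disjoint_left]
    intro κ h1 h2
    obtain ⟨u, _, rfl⟩ := Finset.mem_image.1 h1
    obtain ⟨u', _, h⟩ := Finset.mem_image.1 h2
    have := c.h_conj (ConjClasses.mk_eq_mk_iff_isConj.1 h)
    simp only [h_el] at this
    omega

end Ctx

end Pool.Agent.P.MP_27e7ce_al
end

-- part Pool.Agent.P.MP_27e7ce_al.Alg
section

namespace Pool.Agent.P.MP_27e7ce_al

open Finset Filter Topology Polynomial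

/-- A function with a logarithmic type blow-up satisfies no polynomial relation. -/
lemma no_relation {ι : Type} (l : Filter ι) [l.NeBot] (x s : ι → ℝ) (r : ℝ)
    (hx : Tendsto x l (𝓝 r)) (hxr : ∀ᶠ i in l, x i ≠ r) (hs : Tendsto s l atTop)
    (hxs : ∀ n : ℕ, Tendsto (fun i => (x i - r) * s i ^ n) l (𝓝 0))
    (P : ℝ[X][X]) (hP : P ≠ 0)
    (h0 : ∀ᶠ i in l, P.eval₂ (Polynomial.evalRingHom (x i)) (s i) = 0) : False := by
  classical
  have hnu : ¬ IsUnit (C (X - C r) : ℝ[X][X]) := by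
    rw [Polynomial.isUnit_C]
    exact Polynomial.not_isUnit_X_sub_C r
  obtain ⟨e, Q, hQ, rfl⟩ := WfDvdMonoid.max_power_factor' hP hnu
  have h1 : ∀ᶠ i in l, Q.eval₂ (Polynomial.evalRingHom (x i)) (s i) = 0 := by
    filter_upwards [h0, hxr] with i hi hi'
    rw [eval₂_mul, eval₂_pow, eval₂_C] at hi
    simp only [coe_evalRingHom, eval_sub, eval_X, eval_C, mul_eq_zero] at hi
    rcases hi with hi | hi
    · exact absurd (sub_eq_zero.1 (eq_zero_of_pow_eq_zero hi)) hi'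
    · exact hi
  rw [C_dvd_iff_dvd_coeff, not_forall] at hQ
  obtain ⟨j, hj⟩ := hQ
  set T := (range (Q.natDegree + 1)).filter fun i => ¬ (X - C r ∣ Q.coeff i) with hT
  have hne : T.Nonempty := by
    refine ⟨j, Finset.mem_filter.2 ⟨Finset.mem_range.2 ?_, hj⟩⟩
    by_contra h
    rw [coeff_eq_zero_of_natDegree_lt (by omega)] at hj
    exact hj (dvd_zero _)
  set i₀ := T.max' hne with hi₀
  have hi₀T := Finset.mem_filter.1 (T.max'_mem hne)
  rw [← hi₀] at hi₀T
  have hspos : ∀ᶠ i in l, 0 < s i := hs.eventually_gt_atTop 0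
  have lim : Tendsto (fun i => ∑ n ∈ range (Q.natDegree + 1),
      (Q.coeff n).eval (x i) * s i ^ n / s i ^ i₀) l
      (𝓝 (∑ n ∈ range (Q.natDegree + 1), if n = i₀ then (Q.coeff i₀).eval r else 0)) := by
    refine tendsto_finsetSum _ fun n hn => ?_
    have hc : ∀ p : ℝ[X], Tendsto (fun i => p.eval (x i)) l (𝓝 (p.eval r)) := fun p =>
      (p.continuous.tendsto r).comp hx
    rcases lt_trichotomy n i₀ with h | h | h
    · rw [if_neg h.ne]
      obtain ⟨d, hd⟩ := Nat.exists_eq_add_of_lt h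
      have h2 : Tendsto (fun i => (s i ^ (d + 1))⁻¹) l (𝓝 0) :=
        tendsto_inv_atTop_zero.comp ((tendsto_pow_atTop (by omega)).comp hs)
      have h3 := (hc (Q.coeff n)).mul h2
      rw [mul_zero] at h3
      refine h3.congr' ?_
      filter_upwards [hspos] with i hi
      rw [hd, add_assoc, pow_add _ n]
      field_simp
    · rw [if_pos h, h]
      refine (hc (Q.coeff i₀)).congr' ?_
      filter_upwards [hspos] with i hi
      field_simp
    · rw [if_neg h.ne']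
      obtain ⟨d, hd⟩ := Nat.exists_eq_add_of_le h.le
      have h2 : X - C r ∣ Q.coeff n := by
        by_contra h2
        have := T.le_max' n (Finset.mem_filter.2 ⟨hn, h2⟩)
        omega
      obtain ⟨q, hq⟩ := h2
      have h3 := (hc q).mul (hxs d)
      rw [mul_zero] at h3
      refine h3.congr' ?_
      filter_upwards [hspos] with i hi
      rw [hq, hd, pow_add]
      simp only [eval_mul, eval_sub, eval_X, eval_C]
      field_simp
  rw [Finset.sum_ite_eq' , if_pos hi₀T.1] at lim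
  have lim0 : Tendsto (fun i => ∑ n ∈ range (Q.natDegree + 1),
      (Q.coeff n).eval (x i) * s i ^ n / s i ^ i₀) l (𝓝 0) := by
    refine tendsto_const_nhds.congr' ?_
    filter_upwards [h1] with i hi
    rw [eval₂_eq_sum_range] at hi
    rw [← Finset.sum_div]
    simp only [coe_evalRingHom] at hi
    rw [hi, zero_div]
  exact hi₀T.2 (dvd_iff_isRoot.2 (tendsto_nhds_unique lim lim0))

/-- absolute convergence at `x` with sum `y` -/
def HasVal (x : ℝ) (f : PowerSeries ℚ) (y : ℝ) : Prop :=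
  Summable (fun n => ‖((PowerSeries.coeff n f : ℚ) : ℝ) * x ^ n‖) ∧
    ∑' n, ((PowerSeries.coeff n f : ℚ) : ℝ) * x ^ n = y

lemma HasVal.add {x : ℝ} {f g : PowerSeries ℚ} {y z : ℝ} (hf : HasVal x f y) (hg : HasVal x g z) :
    HasVal x (f + g) (y + z) := by
  have e : ∀ n, ((PowerSeries.coeff n (f + g) : ℚ) : ℝ) * x ^ n =
      ((PowerSeries.coeff n f : ℚ) : ℝ) * x ^ n + ((PowerSeries.coeff n g : ℚ) : ℝ) * x ^ n := by
    intro n; simp [add_mul]
  simp only [HasVal, e]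
  exact ⟨(hf.1.add hg.1).of_nonneg_of_le (fun _ => norm_nonneg _) (fun _ => norm_add_le _ _),
    by rw [hf.1.of_norm.tsum_add hg.1.of_norm, hf.2, hg.2]⟩

lemma HasVal.mul {x : ℝ} {f g : PowerSeries ℚ} {y z : ℝ} (hf : HasVal x f y) (hg : HasVal x g z) :
    HasVal x (f * g) (y * z) := by
  have e : ∀ n, ((PowerSeries.coeff n (f * g) : ℚ) : ℝ) * x ^ n =
      ∑ kl ∈ antidiagonal n, (((PowerSeries.coeff kl.1 f : ℚ) : ℝ) * x ^ kl.1) *
        (((PowerSeries.coeff kl.2 g : ℚ) : ℝ) * x ^ kl.2) := by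
    intro n
    rw [PowerSeries.coeff_mul]
    push_cast
    rw [Finset.sum_mul]
    refine Finset.sum_congr rfl fun kl hkl => ?_
    rw [← Finset.HasAntidiagonal.mem_antidiagonal.1 hkl, pow_add]; ring
  have h1 := summable_norm_sum_mul_antidiagonal_of_summable_norm hf.1 hg.1
  have h2 := tsum_mul_tsum_eq_tsum_sum_antidiagonal_of_summable_norm hf.1 hg.1
  rw [hf.2, hg.2] at h2
  refine ⟨h1.congr fun n => by rw [e], ?_⟩
  rw [h2]
  exact tsum_congr e

lemma hasVal_poly (x : ℝ) (p : ℚ[X]) :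
    HasVal x (algebraMap ℚ[X] (PowerSeries ℚ) p) ((p.map (algebraMap ℚ ℝ)).eval x) := by
  have e : ∀ n, PowerSeries.coeff n (algebraMap ℚ[X] (PowerSeries ℚ) p) = p.coeff n := by
    intro n
    rw [PowerSeries.algebraMap_apply']
    simp
  have z : ∀ n ∉ range (p.natDegree + 1), ((p.coeff n : ℚ) : ℝ) * x ^ n = 0 := by
    intro n hn
    rw [coeff_eq_zero_of_natDegree_lt (by simpa [Nat.lt_succ_iff] using hn)]
    simp
  simp only [HasVal, e]
  refine ⟨summable_of_ne_finset_zero (s := range (p.natDegree + 1)) fun n hn => by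
    rw [z n hn, norm_zero], ?_⟩
  rw [tsum_eq_sum z, eval_map, eval₂_eq_sum_range]
  rfl

lemma HasVal.pow {x : ℝ} {f : PowerSeries ℚ} {y : ℝ} (hf : HasVal x f y) (n : ℕ) :
    HasVal x (f ^ n) (y ^ n) := by
  induction n with
  | zero => simpa using hasVal_poly x 1
  | succ n ih => rw [pow_succ, pow_succ]; exact ih.mul hf

lemma HasVal.aeval {x : ℝ} {f : PowerSeries ℚ} {y : ℝ} (hf : HasVal x f y) (P : ℚ[X][X]) :
    HasVal x (Polynomial.aeval f P)
      ((P.map (Polynomial.mapRingHom (algebraMap ℚ ℝ))).eval₂ (Polynomial.evalRingHom x) y) := by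
  induction P using Polynomial.induction_on' with
  | add p q hp hq => simpa [eval₂_add] using hp.add hq
  | monomial n a =>
    rw [aeval_monomial, Polynomial.map_monomial, eval₂_monomial]
    exact (hasVal_poly x a).mul (hf.pow n)

theorem transcendental_of_log (f : PowerSeries ℚ) (hf : ∀ n, 0 ≤ PowerSeries.coeff n f)
    (r : ℝ) (hr : 0 < r) (D : ℕ) (hD : 1 ≤ D) (K : ℝ)
    (hup : ∀ ρ : ℝ, 1 / 2 ≤ ρ → ρ < 1 → ∀ N : ℕ,
      ∑ n ∈ range N, ((PowerSeries.coeff n f : ℚ) : ℝ) * (r * ρ ^ D) ^ n ≤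
        K * (1 - Real.log (1 - ρ)))
    (hlow : ∀ B : ℝ, ∀ᶠ ρ in 𝓝 (1 : ℝ), 0 ≤ ρ → ρ ≤ 1 → ∃ N : ℕ,
      B ≤ ∑ n ∈ range N, ((PowerSeries.coeff n f : ℚ) : ℝ) * (r * ρ ^ D) ^ n) :
    Transcendental ℚ[X] f := by
  rintro ⟨P, hP0, hP⟩
  set ρ : ℝ → ℝ := fun y => 1 - Real.exp (-y) with hρ
  have hρ1 : ∀ y, ρ y < 1 := fun y => by simp [hρ, Real.exp_pos]
  have hρl : Tendsto ρ atTop (𝓝 1) := by
    simpa [hρ] using (tendsto_const_nhds (x := (1 : ℝ))).sub Real.tendsto_exp_neg_atTop_nhds_zero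
  have hρh : ∀ᶠ y in atTop, 1 / 2 ≤ ρ y := hρl.eventually (eventually_ge_nhds (by norm_num))
  set x : ℝ → ℝ := fun y => r * ρ y ^ D with hx
  set s : ℝ → ℝ := fun y => ∑' n, ((PowerSeries.coeff n f : ℚ) : ℝ) * x y ^ n with hs
  have hnn : ∀ y, 1 / 2 ≤ ρ y → ∀ n, 0 ≤ ((PowerSeries.coeff n f : ℚ) : ℝ) * x y ^ n := by
    intro y hy n
    have : 0 ≤ ρ y := by linarith
    have : (0 : ℝ) ≤ ((PowerSeries.coeff n f : ℚ) : ℝ) := by exact_mod_cast hf n
    positivity
  have hsum : ∀ y, 1 / 2 ≤ ρ y →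
      Summable fun n => ((PowerSeries.coeff n f : ℚ) : ℝ) * x y ^ n := fun y hy =>
    summable_of_sum_range_le (hnn y hy) (hup _ hy (hρ1 y))
  have hsle : ∀ y, 1 / 2 ≤ ρ y → s y ≤ K * (1 + y) := by
    intro y hy
    have := Real.tsum_le_of_sum_range_le (hnn y hy) (hup _ hy (hρ1 y))
    simpa [hρ] using this
  refine no_relation atTop x s r ?_ ?_ ?_ ?_ (P.map (Polynomial.mapRingHom (algebraMap ℚ ℝ)))
    ?_ ?_
  · simpa [hx] using (hρl.pow D).const_mul r
  · filter_upwards [hρh] with y hy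
    have : ρ y ^ D < 1 := pow_lt_one₀ (by linarith) (hρ1 y) (by omega)
    exact (mul_lt_of_lt_one_right hr this).ne
  · refine tendsto_atTop.2 fun B => ?_
    filter_upwards [hρh, hρl.eventually (hlow B)] with y hy hy'
    obtain ⟨N, hN⟩ := hy' (by linarith) (hρ1 y).le
    exact hN.trans ((hsum y hy).sum_le_tsum _ fun n _ => hnn y hy n)
  · intro n
    have h1 : Tendsto (fun y : ℝ => (r * D * K ^ n * Real.exp 1) *
        ((y + 1) ^ n * Real.exp (-(y + 1)))) atTop (𝓝 0) := by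
      have := ((Real.tendsto_pow_mul_exp_neg_atTop_nhds_zero n).comp
        (tendsto_atTop_add_const_right atTop 1 tendsto_id)).const_mul (r * D * K ^ n * Real.exp 1)
      simpa using this
    refine squeeze_zero_norm' ?_ h1
    filter_upwards [hρh] with y hy
    have hs0 : 0 ≤ s y := tsum_nonneg (hnn y hy)
    have h2 : 1 - ρ y ^ D ≤ D * Real.exp (-y) := by
      have := one_add_mul_le_pow (a := -Real.exp (-y)) (by have := hρ1 y; simp only [hρ] at hy; linarith) D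
      simp only [hρ, sub_eq_add_neg]
      linarith
    have h3 : ρ y ^ D ≤ 1 := pow_le_one₀ (by linarith) (hρ1 y).le
    have h4 : |x y - r| ≤ r * (D * Real.exp (-y)) := by
      rw [abs_sub_comm, abs_of_nonneg (by simp only [hx]; nlinarith)]
      simp only [hx]; nlinarith
    have h5 : s y ^ n ≤ (K * (1 + y)) ^ n := pow_le_pow_left₀ hs0 (hsle y hy) n
    rw [Real.norm_eq_abs, abs_mul, abs_of_nonneg (pow_nonneg hs0 n)]
    calc |x y - r| * s y ^ n ≤ r * (D * Real.exp (-y)) * (K * (1 + y)) ^ n := by gcongr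
      _ = _ := by
        rw [neg_add, Real.exp_add, mul_pow, add_comm y 1, Real.exp_neg 1]
        have := Real.exp_pos 1
        field_simp
  · exact (Polynomial.map_ne_zero_iff (Polynomial.map_injective _ (algebraMap ℚ ℝ).injective)).2 hP0
  · filter_upwards [hρh] with y hy
    have h1 : HasVal (x y) f (s y) :=
      ⟨(hsum y hy).congr fun n => (Real.norm_of_nonneg (hnn y hy n)).symm, rfl⟩
    have h2 := (h1.aeval P).2
    rw [hP] at h2
    simpa using h2.symm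

end Pool.Agent.P.MP_27e7ce_al
end

-- part Pool.Agent.P.MP_27e7ce_al.Main
section

namespace Pool.Agent.P.MP_27e7ce_al

open Finset Filter Topology Polynomial

namespace Ctx

variable {G : Type} [Group G] (c : Ctx G)

lemma cl_finite (n : ℕ) : {κ : ConjClasses G | c.cl κ ≤ n}.Finite := by
  refine ((c.ball_finite n).image ConjClasses.mk).subset fun κ hκ => ?_
  obtain ⟨g, hg, hg'⟩ := c.exists_cl κ
  exact ⟨g, by rw [Set.mem_ofPred_eq, hg']; exact hκ, hg⟩

lemma sum_eq (x : ℝ) (N : ℕ) : ∃ Cs : Finset (ConjClasses G), (∀ κ, κ ∈ Cs ↔ c.cl κ < N) ∧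
    ∑ n ∈ range N, (Set.ncard {κ : ConjClasses G | c.cl κ = n} : ℝ) * x ^ n =
      ∑ κ ∈ Cs, x ^ c.cl κ := by
  classical
  have hf : {κ : ConjClasses G | c.cl κ < N}.Finite :=
    (c.cl_finite N).subset fun κ hκ => (le_of_lt hκ : c.cl κ ≤ N)
  refine ⟨hf.toFinset, by simp, ?_⟩
  rw [← Finset.sum_fiberwise_of_maps_to (s := hf.toFinset) (t := range N) (g := c.cl)
    (fun κ hκ => by simpa using hκ)]
  refine Finset.sum_congr rfl fun n hn => ?_
  rw [Finset.sum_congr rfl (g := fun _ => x ^ n) (fun κ hκ => by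
    rw [(Finset.mem_filter.1 hκ).2]), Finset.sum_const, nsmul_eq_mul, ← Set.ncard_coe_finset]
  congr 3
  ext κ
  simp only [Set.mem_ofPred_eq, Finset.coe_filter, Set.Finite.mem_toFinset]
  have := Finset.mem_range.1 hn
  omega

theorem main : Transcendental ℚ[X]
    (PowerSeries.mk fun n : ℕ => (Set.ncard {κ : ConjClasses G | c.cl κ = n} : ℚ)) := by
  classical
  obtain ⟨C, hC⟩ := c.exists_cutConst
  obtain ⟨r, hr0, hr1, hr⟩ := hC.exists_radius
  obtain ⟨K, _, hK⟩ := hC.upper hr0 hr1 (fun m => (hr m).1)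
  refine transcendental_of_log _ (fun n => by simp) r hr0 c.D c.D_pos K ?_ ?_
  · intro ρ h0 h1 N
    simp only [PowerSeries.coeff_mk, Rat.cast_natCast]
    obtain ⟨Cs, _, h⟩ := c.sum_eq (r * ρ ^ c.D) N
    choose rep h2 h3 using c.exists_cl
    have hinj : Function.Injective rep := fun κ κ' h => by rw [← h2 κ, h, h2]
    rw [h]
    refine le_trans (le_of_eq ?_) (hK ρ h0 h1 (Cs.image rep) ?_)
    · rw [Finset.sum_image fun _ _ _ _ h => hinj h]
      simp only [h3]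
    · intro g₀ hg₀ g₁ hg₁ hc
      obtain ⟨κ, _, rfl⟩ := Finset.mem_image.1 hg₀
      obtain ⟨κ', _, rfl⟩ := Finset.mem_image.1 hg₁
      have := ConjClasses.mk_eq_mk_iff_isConj.2 hc
      rw [h2, h2] at this
      rw [this]
  · intro B
    simp only [PowerSeries.coeff_mk, Rat.cast_natCast]
    have hrC : 0 < r ^ C := pow_pos hr0 _
    obtain ⟨M, hM⟩ : ∃ M : ℕ, B < ∑ n ∈ range M, c.A (n + 1) r / (n + 2) := by
      have h1 := Real.tendsto_sum_range_one_div_nat_succ_atTop.const_mul_atTop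
        (show 0 < r ^ C / 2 by positivity)
      obtain ⟨M, hM⟩ := (h1.eventually_gt_atTop B).exists
      refine ⟨M, hM.trans_le ?_⟩
      rw [Finset.mul_sum]
      refine Finset.sum_le_sum fun n _ => ?_
      have h2 := (hr (n + 1)).2
      rw [div_mul_div_comm, mul_one]
      have : (0 : ℝ) ≤ n := by positivity
      gcongr
      · exact hrC.le.trans h2
      · linarith
    have hcont : Continuous fun ρ : ℝ => ∑ n ∈ range M, c.A (n + 1) (r * ρ ^ c.D) / (n + 2) := by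
      refine continuous_finsetSum _ fun n _ => ?_
      exact ((c.A_continuous (n + 1)).comp (by fun_prop)).div_const _
    have hev := (hcont.tendsto 1).eventually (eventually_gt_nhds (b := B) (by simpa using hM))
    filter_upwards [hev] with ρ hρ h0 h1
    have hx0 : 0 ≤ r * ρ ^ c.D := by positivity
    have hx1 : r * ρ ^ c.D ≤ 1 :=
      (mul_le_of_le_one_right hr0.le (pow_le_one₀ h0 h1)).trans hr1.le
    obtain ⟨Cs, hCs⟩ := c.lower hx0 hx1 M
    refine ⟨Cs.sup c.cl + 1, ?_⟩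
    obtain ⟨Cs', h2, h3⟩ := c.sum_eq (r * ρ ^ c.D) (Cs.sup c.cl + 1)
    rw [h3]
    refine hρ.le.trans (hCs.trans (Finset.sum_le_sum_of_subset_of_nonneg ?_
      fun _ _ _ => pow_nonneg hx0 _))
    intro κ hκ
    rw [h2]
    exact Nat.lt_succ_of_le (Finset.le_sup hκ)

end Ctx

theorem main (k : ℕ) (hk : 2 ≤ k) (S : Finset (PresentedGroup (bsRel k)))
    (hS : Subgroup.closure (S : Set (PresentedGroup (bsRel k))) = ⊤) :
    Transcendental (Polynomial ℚ) (conjGrowthSeries (S : Set (PresentedGroup (bsRel k)))) := by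
  obtain ⟨c, hc⟩ := exists_ctx (bsModel k hk) S hS
  have := c.main
  unfold Ctx.cl at this
  rw [hc] at this
  exact this

end Pool.Agent.P.MP_27e7ce_al
end
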